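import Pool.Agent.Lib_helper73.MP.Core

/-!
# The core theorem
-/

namespace Pool.Agent.Lib_helper73.MP

open Set Cardinal Pool.Agent.Lib_helper27 Pool.Agent.MS

set_option linter.unusedSectionVars false
set_option linter.unusedVariables false

variable {P : Type} [Preorder P] {Ω : Type} [LinearOrder Ω] [WellFoundedLT Ω] {c : ℕ → Ω} {l : ℕ}
  {f : ℕ → ℕ}

/-- The core theorem from systems for the blocks. -/
theorem core_blk (hc : Cards c l) (hf : ∀ n, f n ≤ l) (hP : Cl P #(Lv c l))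
    (hB : ∀ m, Bdd P c m)
    (hBlk : ∀ a k, l + 2 ≤ a → ∃ S : BSys P #(Lv c l) (Pt c l f),
      S.Dec #(Lv c (a - 2)) #(Lv c (a - 1)) ∧ ∀ m, a ≤ m → m < a + k → ∀ b, S.Big m b)
    (hBot : ∀ k, ∃ S : BSys P #(Lv c l) (Pt c l f),
      ∀ m, l + 1 ≤ m → m < l + 1 + k → ∀ b, S.Big m b)
    {J : Type} [Countable J] (F : J → List Ω → Nm P Ω) (p : P) :
    ∃ q, q ≤ p ∧ ∃ N : Set Ω, (∀ j, ∀ L : List Ω, (∀ v ∈ L, v ∈ N) → ∃ w ∈ N, (F j L).r q w) ∧
      ∀ m, l < m → ∃ s : Lv c (f m) → Lv c m, StrictMono s ∧ (∀ i, (s i).1 ∈ N) ∧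
        ∀ x ∈ N, x < c m → ∃ i, x < (s i).1 := by
  classical
  have hb : ℵ₀ ≤ #(Lv c l) := aleph0_le_lv hc l
  have hx0 : ∀ n, Nonempty (Lv c n) := fun n => by
    have := inst_inf hc n
    infer_instance
  let x0 : ∀ n, Lv c n := fun n => (hx0 n).some
  -- the value which is taken infinitely often
  have hpig : ∃ k ≤ l, {n | l < n ∧ f n = k}.Infinite := by
    by_contra hcon
    push Not at hcon
    have hfin : (⋃ k : Set.Iic l, {n | l < n ∧ f n = k.1}).Finite :=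
      Set.finite_iUnion fun k => hcon k.1 k.2
    have hsub : {n | l < n} ⊆ ⋃ k : Set.Iic l, {n | l < n ∧ f n = k.1} := by
      intro n hn
      exact mem_iUnion.2 ⟨⟨f n, hf n⟩, hn, rfl⟩
    exact (Set.infinite_of_injective_forall_mem (f := fun k : ℕ => l + 1 + k)
      (fun a b h => by simpa using h) (fun k => by simp; omega)) (hfin.subset hsub)
  obtain ⟨k, hk, hX⟩ := hpig
  set X : Set ℕ := {n | l < n ∧ f n = k} with hXdef
  have hXl : ∀ x ∈ X, l < x := fun x hx => hx.1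
  -- the systems for the blocks
  have hBex : ∀ n, ∃ S : BSys P #(Lv c l) (Pt c l f), (n ∈ X → S.Dec #(Lv c (n - 1)) #(Lv c n)) ∧
      (n ∈ X ∨ n = l → ∀ m, n < m → m < nx X n → S.Big m (nx X n)) := by
    intro n
    by_cases h : n ∈ X
    · have hnl := hXl n h
      obtain ⟨S, h1, h2⟩ := hBlk (n + 1) (nx X n - (n + 1)) (by omega)
      refine ⟨S, fun _ => ?_, fun _ m h3 h4 => h2 m (by omega) (by omega) _⟩
      have e1 : n + 1 - 2 = n - 1 := by omega
      have e2 : n + 1 - 1 = n := by omega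
      rwa [e1, e2] at h1
    · obtain ⟨S, h2⟩ := hBot (nx X l - (l + 1))
      refine ⟨S, fun h' => absurd h' h, fun h' m h3 h4 => ?_⟩
      rcases h' with h' | h'
      · exact absurd h' h
      · subst h'
        exact h2 m (by omega) (by omega) _
  choose B hD hBig using hBex
  -- a point
  have hne : Nonempty (Pt c l f) := by
    obtain ⟨r, _⟩ := exists_cd hP hb B p
    obtain ⟨_, _, e, _⟩ := (B 0).All_ex (r.ok 0) (φ := fun _ _ => True) (fun _ _ _ _ h => h)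
      ((B 0).All_univ (fun _ _ _ _ h => h) fun q _ e => Loc.pure fun _ _ => trivial)
    exact ⟨e⟩
  obtain ⟨L, hLp⟩ := exists_lim hc hf hP hB hXl hD hBig F x0 hne hk p
  obtain ⟨q1, hq1, hy⟩ := exists_good hc hf hP L
  choose y hy using hy
  -- decide everything
  obtain ⟨q, hq, hval⟩ := hP.distr L.card (fun H : L.N => {r | ∃ v, (H.1 (cen l X y)).r r v}) q1
    (fun H r _ => (H.1 (cen l X y)).dense r)
    (fun H r r' hr ⟨v, hv⟩ => ⟨v, (H.1 (cen l X y)).mono hr hv⟩)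
  refine ⟨q, hq.trans (hq1.trans hLp), {v | ∃ H ∈ L.N, (H (cen l X y)).r q v}, ?_, ?_⟩
  · intro j vs hvs
    have hHs : ∀ vs : List Ω, (∀ v ∈ vs, ∃ H ∈ L.N, (H (cen l X y)).r q v) →
        ∃ Hs : List (Pt c l f → Nm P Ω), (∀ H ∈ Hs, H ∈ L.N) ∧
          List.Forall₂ (fun H v => (H (cen l X y)).r q v) Hs vs := by
      intro vs
      induction vs with
      | nil => exact fun _ => ⟨[], by simp, List.Forall₂.nil⟩
      | cons v vs ih =>
        intro h
        obtain ⟨Hs, h1, h2⟩ := ih fun v hv => h v (by simp [hv])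
        obtain ⟨H, hH, hv⟩ := h v (by simp)
        refine ⟨H :: Hs, ?_, List.Forall₂.cons hv h2⟩
        intro H' hH'
        rcases List.mem_cons.1 hH' with rfl | h'
        · exact hH
        · exact h1 _ h'
    obtain ⟨Hs, h1, h2⟩ := hHs vs hvs
    have hmem := L.alg j Hs h1
    obtain ⟨w, hw⟩ := hval ⟨_, hmem⟩
    have hw0 := hw
    obtain ⟨vs', h3, h4⟩ : ∃ vs', (evL Hs (cen l X y)).r q vs' ∧ (F j vs').r q w := hw
    have h5 := evL_r h2
    have h6 := (evL Hs (cen l X y)).uniq h3 h5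
    subst h6
    exact ⟨w, ⟨_, hmem, hw0⟩, h4⟩
  · intro m hm
    by_cases hmX : m ∈ X
    · obtain ⟨σ, h1, h2, h3⟩ := L.bet m hm
      have hfm : f m = k := hmX.2
      have key : ∃ s : Lv c k → Lv c m, StrictMono s ∧
          (∀ i, (s i).1 ∈ {v | ∃ H ∈ L.N, (H (cen l X y)).r q v}) ∧
          ∀ x ∈ {v | ∃ H ∈ L.N, (H (cen l X y)).r q v}, x < c m → ∃ i, x < (s i).1 := by
        refine ⟨σ, h1, fun i => ⟨_, h2 i, rfl⟩, ?_⟩
        rintro x ⟨H, hH, hx⟩ hxm
        exact bound_X hX hXl hq1 hy hmX h3 hH hq hx hxm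
      rw [hfm]
      exact key
    · refine ⟨(cen l X y m).1, (cen l X y m).2 hm, fun i => ⟨crd ⟨m, i⟩, L.crd ⟨m, i⟩ ⟨hm, hmX⟩, rfl⟩,
        ?_⟩
      rintro x ⟨H, hH, hx⟩ hxm
      exact bound_Y hX hXl hy hm hmX hH hq hx hxm

/-- a point -/
theorem nonempty_pt (hc : Cards c l) (hf : ∀ n, f n ≤ l) : Nonempty (Pt c l f) := by
  classical
  have hx0 : ∀ n, Nonempty (Lv c n) := fun n => by
    have := inst_inf hc n
    infer_instance
  refine ⟨fun n => ?_⟩
  by_cases h : l < n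
  · exact ⟨fun x => ⟨x.1, x.2.trans (hc.mono (lt_of_le_of_lt (hf n) h))⟩, fun _ a b hab => hab⟩
  · exact ⟨fun _ => (hx0 n).some, fun h' => absurd h' h⟩

/-- The core theorem. -/
theorem core (hc : Cards c l) (hP : Pkg P c l) : MutSt P c l := by
  classical
  intro f hf J _ F p hF
  have hb : ℵ₀ ≤ #(Lv c l) := aleph0_le_lv hc l
  have hx0 : Nonempty (Lv c 0) := by
    have := inst_inf hc 0
    infer_instance
  obtain ⟨pt⟩ := nonempty_pt hc hf
  -- the systems at the coordinates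
  have hT : ∀ n, ∃ T : BSys P #(Lv c l) (EE c l f n),
      (l + 2 ≤ n → T.Dec #(Lv c (n - 2)) #(Lv c (n - 1))) ∧ (l < n → T.LBig) := by
    intro n
    by_cases h : l + 2 ≤ n
    · obtain ⟨S, h1, h2, h3⟩ := hP.sys n h (f n) (hf n)
      exact ⟨ofSys S h1, fun _ => ofSys_dec S h1 h2,
        fun hn => ofSys_lbig hc hn (hP.bdd n) S h1 h3⟩
    · by_cases h' : l < n
      · exact ⟨clubSys hc h' (hf n) hP.cl, fun h'' => absurd h'' h,
          fun hn => clubSys_lbig hc h' (hf n) hP.cl (hP.bdd n)⟩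
      · exact ⟨BSys.triv P _ (pt n), fun h'' => absurd h'' h, fun h'' => absurd h'' h'⟩
  choose T hTD hTB using hT
  obtain ⟨q, hq, N, hN1, hN2⟩ := core_blk hc hf hP.cl hP.bdd
    (fun a k ha => ⟨Blk hP.cl hb pt T a k, Blk_dec _ _ _ _ _ _ _ _ fun n h1 h2 =>
      (hTD n (by omega)).mono (lv_le hc (by omega)) (lv_le hc (by omega)),
      fun m h1 h2 b => Blk_big _ _ _ _ _ _ _ _ (fun n h3 h4 => hTB n (by omega)) h1 h2⟩)
    (fun k => ⟨Blk hP.cl hb pt T (l + 1) k, fun m h1 h2 b =>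
      Blk_big _ _ _ _ _ _ _ _ (fun n h3 h4 => hTB n (by omega)) h1 h2⟩)
    (fun j L => ofFN (F j) p (hF j) (hx0.some.1) L) p
  refine ⟨q, hq, N, ?_, hN2⟩
  intro j L hL
  obtain ⟨w, hw, h⟩ := hN1 j L hL
  exact ⟨w, hw, (ofFN_r hq).1 h⟩

end Pool.Agent.Lib_helper73.MP
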