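import Pool.Agent.Lib_helper73.MP.Ext

/-!
# Blocks of coordinates
-/

namespace Pool.Agent.Lib_helper73.MP

open Set Cardinal Pool.Agent.Lib_helper27 Pool.Agent.MS

set_option linter.unusedSectionVars false
set_option linter.unusedVariables false

section

variable {P : Type} [Preorder P] {θ : Cardinal.{0}} {E : ℕ → Type}

variable (S : BSys P θ (∀ n, E n)) (a : ℕ) (T : BSys P θ (E a))

theorem BSys.ext_dec (hP : Cl P θ) (hθ : ℵ₀ ≤ θ) {μ ν : Cardinal.{0}} (hS : S.Dec μ ν)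
    (hT : T.Dec μ ν) : (S.ext a T hP hθ).Dec μ ν := by
  intro p x hx U Z hU hZ H
  obtain ⟨_, _, e0, d0, _⟩ := S.All_ex hx.1 (mn_xok a T _) hx.2
  have hne : Nonempty (T.C × (U → Nm P Z)) := ⟨(d0, fun u => H u e0)⟩
  let D : (∀ n, E n) → P → (T.C × (U → Nm P Z)) → Prop := fun e r dg => T.ok r dg.1 ∧
    (∃ d, (x.2 e).r r d ∧ T.le r dg.1 d) ∧
    T.All r dg.1 (fun r' s => ∀ u, Nm.Eqv r' (H u (Function.update e a s)) (dg.2 u))
  have hmE : ∀ e (g : U → Nm P Z), Mn (fun r' (s : E a) => ∀ u,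
      Nm.Eqv r' (H u (Function.update e a s)) (g u)) := fun e g p q hq s h u => (h u).mono hq
  have hD : ∀ e, ∀ {p q : P} {z : T.C × (U → Nm P Z)}, q ≤ p → D e p z → D e q z := by
    rintro e p q z hq ⟨h1, ⟨d, h2, h3⟩, h4⟩
    exact ⟨T.ok_mono hq h1, ⟨d, (x.2 e).mono hq h2, T.le_mono hq h3⟩, T.All_mono hq (hmE e z.2) h4⟩
  choose Y hY using fun e => exists_mixN (D e) (hD e)
  obtain ⟨q, hq, c', hc', hle, g, hg⟩ := hS p x.1 hx.1 U Z hU hZ
    (fun u e => (Y e).bnd fun dg => dg.2 u)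
  have hmD : Mn fun r e => ∃ dg, (Y e).r r dg ∧ D e r dg := by
    rintro p q hq e ⟨d, h4, h5⟩
    exact ⟨d, (Y e).mono hq h4, hD e hq h5⟩
  have h1 : S.All q c' fun r e => ∃ dg, (Y e).r r dg ∧ D e r dg := by
    refine S.All_imp (mn_xok a T _) hmD ?_ (S.All_le hle (mn_xok a T _)
      (S.All_mono hq (mn_xok a T _) hx.2))
    rintro r _ e ⟨d, h2, h3⟩
    refine hY e r fun r' hr' => ?_
    obtain ⟨q', hq', d', hd', hle', g', hg'⟩ := hT r' d (T.ok_mono hr' h3) U Z hU hZ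
      (fun u s => H u (Function.update e a s))
    exact ⟨q', hq', (d', g'), hd', ⟨d, (x.2 e).mono (hq'.trans hr') h2, hle'⟩, hg'⟩
  refine ⟨q, hq, (c', fun e => (Y e).map Prod.fst), ⟨hc', S.All_imp hmD (mn_xok a T _) ?_ h1⟩,
    ⟨hle, S.All_imp hmD (mn_xle a T _ _) ?_ h1⟩, g, ?_⟩
  · rintro r _ e ⟨dg, h2, h3, h4, h5⟩
    exact Loc.pure fun r' hr' => ⟨dg.1, ⟨dg, (Y e).mono hr' h2, rfl⟩, T.ok_mono hr' h3⟩
  · rintro r _ e ⟨dg, h2, h3, ⟨d, h4, h6⟩, h5⟩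
    exact Loc.pure fun r' hr' => ⟨dg.1, d, ⟨dg, (Y e).mono hr' h2, rfl⟩, (x.2 e).mono hr' h4,
      T.le_mono hr' h6⟩
  · have hm2 : Mn fun r e => ∀ u, Nm.Eqv r ((Y e).bnd fun dg => dg.2 u) (g u) :=
      fun p q hq s h u => (h u).mono hq
    refine S.All_imp ?_ (mn_xAll a T (φ := fun r y => ∀ u, Nm.Eqv r (H u y) (g u))
      (fun p q hq s h u => (h u).mono hq) _) ?_ (S.All_and hP (two_le hθ) hmD hm2 h1 hg)
    · rintro p q hq e ⟨h2, h3⟩
      exact ⟨hmD hq h2, hm2 hq h3⟩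
    · rintro r _ e ⟨⟨dg, h2, h3, _, h5⟩, h6⟩
      refine Loc.pure fun r' hr' => ⟨dg.1, ⟨dg, (Y e).mono hr' h2, rfl⟩, ?_⟩
      refine T.All_imp (hmE e dg.2) (hmE e g) ?_ (T.All_mono hr' (hmE e dg.2) h5)
      intro r'' hr'' s h7
      refine Loc.pure fun r3 hr3 u => ?_
      have h8 : Nm.Eqv r3 (dg.2 u) ((Y e).bnd fun dg => dg.2 u) :=
        ((dg.2 u).loc r3).imp fun r4 hr4 ⟨z, hz⟩ => ⟨z, hz, dg,
          (Y e).mono (hr4.trans (hr3.trans (hr''.trans hr'))) h2, hz⟩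
      exact ((h7 u).mono hr3).trans (h8.trans ((h6 u).mono (hr3.trans (hr''.trans hr'))))

end

section

variable {P : Type} [Preorder P] {θ : Cardinal.{0}} {Ω : Type} [LinearOrder Ω] [WellFoundedLT Ω]

/-- sequences of length `κ_(f n)` in `κ_n`, increasing for `n > l` -/
abbrev EE (c : ℕ → Ω) (l : ℕ) (f : ℕ → ℕ) (n : ℕ) : Type :=
  {e : Lv c (f n) → Lv c n // l < n → StrictMono e}

/-- points -/
abbrev Pt (c : ℕ → Ω) (l : ℕ) (f : ℕ → ℕ) : Type := ∀ n, EE c l f n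

/-- leaves -/
abbrev Leaf (c : ℕ → Ω) (f : ℕ → ℕ) : Type := Σ n, Lv c (f n)

variable {c : ℕ → Ω} {l : ℕ} {f : ℕ → ℕ}

/-- `H` depends only on the leaves in `A` -/
def FinL (A : Finset (Leaf c f)) (H : Pt c l f → Nm P Ω) : Prop :=
  ∀ e e' : Pt c l f, (∀ a ∈ A, (e a.1).1 a.2 = (e' a.1).1 a.2) → H e = H e'

/-- `r` forces: if `x < κ_m` then `x < e_m(i)` for some `i` -/
def Bnd (m : ℕ) (r : P) (x : Nm P Ω) (e : EE c l f m) : Prop :=
  ∀ r', r' ≤ r → ∀ v, x.r r' v → v < c m → ∃ i, v < (e.1 i).1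

theorem Bnd.mono {m : ℕ} {r r' : P} {x : Nm P Ω} {e : EE c l f m} (h : Bnd m r x e)
    (hr : r' ≤ r) : Bnd m r' x e := fun s hs => h s (hs.trans hr)

/-- closure of the coordinate `m` of the points (up to the coordinates below `b`) -/
def BSys.Big (S : BSys P θ (Pt c l f)) (m b : ℕ) : Prop :=
  ∀ p x, S.ok p x → ∀ (H : Pt c l f → Nm P Ω) (A : Finset (Leaf c f)),
    (∀ a ∈ A, m ≤ a.1 ∧ a.1 < b) → FinL A H → ∃ q, q ≤ p ∧ ∃ x', S.ok q x' ∧ S.le q x' x ∧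
      S.All q x' fun r y => Bnd m r (H y) (y m)

/-- closure for a system at one coordinate -/
def BSys.LBig {n : ℕ} (T : BSys P θ (EE c l f n)) : Prop :=
  ∀ p x, T.ok p x → ∀ (H : EE c l f n → Nm P Ω) (B : Finset (Lv c (f n))),
    (∀ s s' : EE c l f n, (∀ i ∈ B, s.1 i = s'.1 i) → H s = H s') →
    ∃ q, q ≤ p ∧ ∃ x', T.ok q x' ∧ T.le q x' x ∧ T.All q x' fun r s => Bnd n r (H s) s

variable (S : BSys P θ (Pt c l f)) (a : ℕ) (T : BSys P θ (EE c l f a))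

theorem mn_Bnd {n : ℕ} (H : EE c l f n → Nm P Ω) : Mn fun r s => Bnd n r (H s) s :=
  fun p q hq s h => h.mono hq

theorem mn_BndB {m : ℕ} (H : Pt c l f → Nm P Ω) : Mn fun r (y : Pt c l f) => Bnd m r (H y) (y m) :=
  fun p q hq s h => h.mono hq

theorem BSys.ext_big_top (hP : Cl P θ) (hθ : ℵ₀ ≤ θ) (hT : T.LBig) (b : ℕ) :
    (S.ext a T hP hθ).Big a b := by
  classical
  intro p x hx H A hA hH
  obtain ⟨_, _, e0, d0, _⟩ := S.All_ex hx.1 (mn_xok a T _) hx.2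
  have hne : Nonempty T.C := ⟨d0⟩
  let D : Pt c l f → P → T.C → Prop := fun e r d' => T.ok r d' ∧
    (∃ d, (x.2 e).r r d ∧ T.le r d' d) ∧
    T.All r d' (fun r' s => Bnd a r' (H (Function.update e a s)) s)
  have hD : ∀ e, ∀ {p q : P} {z : T.C}, q ≤ p → D e p z → D e q z := by
    rintro e p q z hq ⟨h1, ⟨d, h2, h3⟩, h4⟩
    exact ⟨T.ok_mono hq h1, ⟨d, (x.2 e).mono hq h2, T.le_mono hq h3⟩,
      T.All_mono hq (mn_Bnd _) h4⟩
  choose Y hY using fun e => exists_mixN (D e) (hD e)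
  have hmD : Mn fun r e => ∃ d, (Y e).r r d ∧ D e r d := by
    rintro p q hq e ⟨d, h4, h5⟩
    exact ⟨d, (Y e).mono hq h4, hD e hq h5⟩
  have h1 : S.All p x.1 fun r e => ∃ d, (Y e).r r d ∧ D e r d := by
    refine S.All_imp (mn_xok a T _) hmD ?_ hx.2
    rintro r _ e ⟨d, h2, h3⟩
    refine hY e r fun r' hr' => ?_
    let B : Finset (Lv c (f a)) := A.biUnion fun b =>
      if h : b.1 = a then {h ▸ b.2} else ∅
    obtain ⟨q', hq', d', hd', hle', hg'⟩ := hT r' d (T.ok_mono hr' h3)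
      (fun s => H (Function.update e a s)) B (by
        intro s s' hs
        refine hH _ _ fun b hb => ?_
        obtain ⟨n, i⟩ := b
        by_cases h : n = a
        · subst h
          simp only [Function.update_self]
          refine hs i ?_
          simp only [B, Finset.mem_biUnion]
          exact ⟨⟨n, i⟩, hb, by simp⟩
        · simp only [Function.update_of_ne h])
    exact ⟨q', hq', d', hd', ⟨d, (x.2 e).mono (hq'.trans hr') h2, hle'⟩, hg'⟩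
  refine ⟨p, le_rfl, (x.1, Y), ⟨hx.1, S.All_imp hmD (mn_xok a T _) ?_ h1⟩,
    ⟨S.le_refl hx.1, S.All_imp hmD (mn_xle a T _ _) ?_ h1⟩,
    S.All_imp hmD (mn_xAll a T (mn_BndB H) _) ?_ h1⟩
  · rintro r _ e ⟨d, h2, h3, h4, h5⟩
    exact Loc.pure fun r' hr' => ⟨d, (Y e).mono hr' h2, T.ok_mono hr' h3⟩
  · rintro r _ e ⟨d', h2, h3, ⟨d, h4, h6⟩, h5⟩
    exact Loc.pure fun r' hr' => ⟨d', d, (Y e).mono hr' h2, (x.2 e).mono hr' h4,
      T.le_mono hr' h6⟩
  · rintro r _ e ⟨d', h2, h3, ⟨d, h4, h6⟩, h5⟩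
    refine Loc.pure fun r' hr' => ⟨d', (Y e).mono hr' h2, ?_⟩
    refine T.All_imp (mn_Bnd _) (mn_upd a (mn_BndB H) e) ?_ (T.All_mono hr' (mn_Bnd _) h5)
    intro q hq s h
    refine Loc.pure fun q' hq' => ?_
    have := h.mono hq'
    simpa only [Function.update_self] using this

theorem BSys.ext_big_up (hP : Cl P θ) (hθ : ℵ₀ ≤ θ) {m b : ℕ} (ham : a < m) (hS : S.Big m b) :
    (S.ext a T hP hθ).Big m b := by
  intro p x hx H A hA hH
  obtain ⟨q, hq, c', hc', hle, hall⟩ := hS p x.1 hx.1 H A hA hH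
  have hok : S.All q c' fun r e => ∃ d, (x.2 e).r r d ∧ T.ok r d :=
    S.All_le hle (mn_xok a T _) (S.All_mono hq (mn_xok a T _) hx.2)
  refine ⟨q, hq, (c', x.2), ⟨hc', hok⟩, ⟨hle, S.All_imp (mn_xok a T _) (mn_xle a T _ _) ?_ hok⟩, ?_⟩
  · rintro r _ e ⟨d, h1, h2⟩
    exact Loc.pure fun r' hr' => ⟨d, d, (x.2 e).mono hr' h1, (x.2 e).mono hr' h1,
      T.le_mono hr' (T.le_refl h2)⟩
  · refine S.All_imp ?_ (mn_xAll a T (mn_BndB H) _) ?_ (S.All_and hP (two_le hθ) (mn_xok a T _)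
      (mn_BndB H) hok hall)
    · rintro p q hq e ⟨h1, h2⟩
      exact ⟨mn_xok a T _ hq h1, mn_BndB H hq h2⟩
    · rintro r _ e ⟨⟨d, h1, h2⟩, h3⟩
      refine Loc.pure fun r' hr' => ⟨d, (x.2 e).mono hr' h1, ?_⟩
      refine T.All_univ (mn_upd a (mn_BndB H) e) fun q hq s => Loc.pure fun q' hq' => ?_
      have h4 : H (Function.update e a s) = H e := by
        refine hH _ _ fun b hb => ?_
        have := (hA b hb).1
        have hne : b.1 ≠ a := by omega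
        rw [Function.update_of_ne hne]
      have h5 : (Function.update e a s : Pt c l f) m = e m :=
        Function.update_of_ne (by omega) _ _
      change Bnd m q' (H (Function.update e a s)) ((Function.update e a s : Pt c l f) m)
      rw [h4, h5]
      exact h3.mono (hq'.trans (hq.trans hr'))

/-- The block system for the coordinates `a, ..., a + k - 1`. -/
noncomputable def Blk (hP : Cl P θ) (hθ : ℵ₀ ≤ θ) (pt : Pt c l f) (T : ∀ n, BSys P θ (EE c l f n)) :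
    ℕ → ℕ → BSys P θ (Pt c l f)
  | _, 0 => BSys.triv P θ pt
  | a, k + 1 => (Blk hP hθ pt T (a + 1) k).ext a (T a) hP hθ

theorem Blk_dec (hP : Cl P θ) (hθ : ℵ₀ ≤ θ) (pt : Pt c l f) (T : ∀ n, BSys P θ (EE c l f n))
    (μ ν : Cardinal.{0}) (k : ℕ) :
    ∀ a, (∀ n, a ≤ n → n < a + k → (T n).Dec μ ν) → (Blk hP hθ pt T a k).Dec μ ν := by
  induction k with
  | zero => exact fun a _ => BSys.triv_dec _ _ _
  | succ k ih =>
    intro a h
    exact BSys.ext_dec _ _ _ _ _ (ih (a + 1) fun n h1 h2 => h n (by omega) (by omega))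
      (h a le_rfl (by omega))

theorem Blk_big (hP : Cl P θ) (hθ : ℵ₀ ≤ θ) (pt : Pt c l f) (T : ∀ n, BSys P θ (EE c l f n))
    (m b : ℕ) (k : ℕ) :
    ∀ a, (∀ n, a ≤ n → n < a + k → (T n).LBig) → a ≤ m → m < a + k →
      (Blk hP hθ pt T a k).Big m b := by
  induction k with
  | zero => intro a _ h1 h2; omega
  | succ k ih =>
    intro a hT h1 h2
    rcases eq_or_lt_of_le h1 with h | h
    · subst h
      exact BSys.ext_big_top _ _ _ _ _ (hT a le_rfl (by omega)) b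
    · exact BSys.ext_big_up _ _ _ _ _ h
        (ih (a + 1) (fun n h3 h4 => hT n (by omega) (by omega)) h (by omega))

end

end Pool.Agent.Lib_helper73.MP
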