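import Pool.Agent.Lib_helper73.MP.Card

/-!
# Bounds
-/

namespace Pool.Agent.Lib_helper73.MP

open Set Cardinal Pool.Agent.Lib_helper27 Pool.Agent.MS

set_option linter.unusedSectionVars false
set_option linter.unusedVariables false

variable {P : Type} [Preorder P] {Ω : Type} [LinearOrder Ω] [WellFoundedLT Ω] {c : ℕ → Ω} {l : ℕ}
  {f : ℕ → ℕ}

/-- the regularity hypothesis for names -/
theorem bddN {m : ℕ} (hB : Bdd P c m) {D : Type} (hD : #D < #(Lv c m)) (g : D → Nm P (Lv c m))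
    (p : P) : ∃ q, q ≤ p ∧ ∃ x : Lv c m, ∀ r, r ≤ q → ∀ d v, (g d).r r v → v ≤ x := by
  let G : FN P D (Lv c m) :=
    { r := fun p d v => Loc p fun q => (g d).r q v
      uniq := by
        intro p d v v' h h'
        obtain ⟨q, hq, h1⟩ := h.exists
        obtain ⟨r, hr, h2⟩ := h' q hq
        exact (g d).uniq ((g d).mono hr h1) h2
      mono := fun hq h => h.mono hq
      reg := fun h => h.bind fun q _ h => h }
  obtain ⟨q, hq, x, hx⟩ := hB D hD p G (by
    intro d
    refine ((g d).loc p).imp ?_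
    rintro q hq ⟨v, hv⟩
    exact ⟨v, Loc.pure fun r hr => (g d).mono hr hv⟩)
  exact ⟨q, hq, x, fun r hr d v hv => hx r hr d v (Loc.pure fun s hs => (g d).mono hs hv)⟩

/-- a name for a bound -/
theorem exists_bn {m : ℕ} (hB : Bdd P c m) {D : Type} (hD : #D < #(Lv c m))
    (g : D → Nm P (Lv c m)) (hne : Nonempty (Lv c m)) : ∃ y : Nm P (Lv c m), ∀ p,
      Loc p fun q => ∃ x, y.r q x ∧ ∀ r, r ≤ q → ∀ d v, (g d).r r v → v ≤ x := by
  obtain ⟨y, hy⟩ := exists_mixN (fun q (x : Lv c m) => ∀ r, r ≤ q → ∀ d v, (g d).r r v → v ≤ x)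
    (fun hq h r hr => h r (hr.trans hq))
  exact ⟨y, fun p => hy p fun q _ => bddN hB hD g q⟩

/-- the value in `κ_m` (`x0` if the value is not below `κ_m`) -/
noncomputable def toLv (m : ℕ) (x0 : Lv c m) (v : Ω) : Lv c m :=
  open Classical in if h : v < c m then ⟨v, h⟩ else x0

theorem toLv_of {m : ℕ} {x0 : Lv c m} {v : Ω} (h : v < c m) : (toLv m x0 v).1 = v := by
  unfold toLv
  rw [dif_pos h]

/-- a bound for the values below `κ_m` of the function `H` on points which depends only on the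
finite set `A` of leaves, over all values of the leaves in `A \\ A'`, where the leaves in `A \\ A'`
are below `m` -/
theorem exists_supl (hc : Cards c l) {m : ℕ} (hm : l < m) (hB : Bdd P c m)
    (H : Pt c l f → Nm P Ω) (A A' : Finset (Leaf c f)) (hA : ∀ a ∈ A, a ∉ A' → a.1 < m)
    (hH : FinL A H) : ∃ H' : Pt c l f → Nm P Ω, FinL A' H' ∧
      (∀ e p v, (H' e).r p v → v < c m) ∧
      ∀ e p v, (H e).r p v → v < c m → Loc p fun q => ∃ w, (H' e).r q w ∧ v ≤ w := by
  classical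
  have hinf := inst_inf hc m
  obtain ⟨x0⟩ : Nonempty (Lv c m) := inferInstance
  have hκ : ℵ₀ < #(Lv c m) := (aleph0_le_lv hc l).trans_lt (lv_lt hc hm)
  let U : Type := ∀ a : {a // a ∈ A ∧ a ∉ A'}, Lv c a.1.1
  have hUfin : Finite {a // a ∈ A ∧ a ∉ A'} := Finite.of_injective
    (fun a => (⟨a.1, a.2.1⟩ : {a // a ∈ A})) (fun a b h => Subtype.ext (by simpa using h))
  have hU : #U < #(Lv c m) := mk_pi_lt _ hκ fun a => lv_lt hc (hA a.1 a.2.1 a.2.2)
  -- the tuples for the remaining leaves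
  let W : Type := ∀ a : {a // a ∈ A'}, Lv c a.1.1
  -- a point with given values
  let pp : W → U → Option (Pt c l f) := fun w u =>
    if h : ∃ e : Pt c l f, (∀ a, (e a.1.1).1 a.1.2 = w a) ∧ ∀ a, (e a.1.1).1 a.1.2 = u a then
      some h.choose else none
  let g : W → U → Nm P (Lv c m) := fun w u =>
    match pp w u with
    | some e => (H e).map (toLv m x0)
    | none => Nm.chk x0
  choose y hy using fun w => exists_bn hB hU (g w) ⟨x0⟩
  let wt : Pt c l f → W := fun e a => (e a.1.1).1 a.1.2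
  refine ⟨fun e => (y (wt e)).map Subtype.val, ?_, ?_, ?_⟩
  · intro e e' h
    have : wt e = wt e' := funext fun a => h a.1 a.2
    simp only [this]
  · rintro e p v ⟨x, _, rfl⟩
    exact x.2
  · intro e p v hv hvm
    let w : W := fun a => (e a.1.1).1 a.1.2
    let u : U := fun a => (e a.1.1).1 a.1.2
    have hex : ∃ e' : Pt c l f, (∀ a, (e' a.1.1).1 a.1.2 = w a) ∧
        ∀ a, (e' a.1.1).1 a.1.2 = u a := ⟨e, fun _ => rfl, fun _ => rfl⟩
    have hpp : pp w u = some hex.choose := dif_pos hex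
    have hg : g w u = (H hex.choose).map (toLv m x0) := by
      simp only [g, hpp]
    have hHe : H hex.choose = H e := by
      refine hH _ _ fun a ha => ?_
      by_cases ha' : a ∈ A'
      · exact hex.choose_spec.1 ⟨a, ha'⟩
      · exact hex.choose_spec.2 ⟨a, ha, ha'⟩
    refine (hy w p).imp ?_
    rintro q hq ⟨x, hx, hb⟩
    refine ⟨x.1, ⟨x, hx, rfl⟩, ?_⟩
    have h1 : (g w u).r q (toLv m x0 v) := by
      rw [hg, hHe]
      exact ⟨v, (H e).mono hq hv, rfl⟩
    have h2 := hb q le_rfl u _ h1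
    rw [← toLv_of (x0 := x0) hvm]
    exact h2

/-- the function on `κ_n` used for the closure of the increasing sequences -/
theorem exists_close (hc : Cards c l) {n : ℕ} (hn : l < n) (hB : Bdd P c n)
    (H : EE c l f n → Nm P Ω) (B : Finset (Lv c (f n)))
    (hH : ∀ s s' : EE c l f n, (∀ i ∈ B, s.1 i = s'.1 i) → H s = H s') :
    ∃ H' : Lv c n → Nm P (Lv c n), ∀ (e : EE c l f n) (i0 : Lv c (f n)), (∀ i ∈ B, i ≤ i0) →
      ∀ p v, (H e).r p v → v < c n → Loc p fun q => ∃ w, (H' (e.1 i0)).r q w ∧ v ≤ w.1 := by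
  classical
  have hinf := inst_inf hc n
  obtain ⟨x0⟩ : Nonempty (Lv c n) := inferInstance
  have hκ : ℵ₀ < #(Lv c n) := (aleph0_le_lv hc l).trans_lt (lv_lt hc hn)
  let pp : ∀ x : Lv c n, ({i // i ∈ B} → {y : Lv c n // y ≤ x}) → Option (EE c l f n) := fun x u =>
    if h : ∃ e : EE c l f n, ∀ a, e.1 a.1 = (u a).1 then some h.choose else none
  let g : ∀ x : Lv c n, ({i // i ∈ B} → {y : Lv c n // y ≤ x}) → Nm P (Lv c n) := fun x u =>
    match pp x u with
    | some e => (H e).map (toLv n x0)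
    | none => Nm.chk x0
  have hU : ∀ x : Lv c n, #({i // i ∈ B} → {y : Lv c n // y ≤ x}) < #(Lv c n) := fun x =>
    mk_pi_lt _ hκ fun _ => mk_Iic_lt hc x
  choose y hy using fun x => exists_bn hB (hU x) (g x) ⟨x0⟩
  refine ⟨y, fun e i0 hi0 p v hv hvn => ?_⟩
  let u : {i // i ∈ B} → {y : Lv c n // y ≤ e.1 i0} := fun a =>
    ⟨e.1 a.1, (e.2 hn).monotone (hi0 a.1 a.2)⟩
  have hex : ∃ e' : EE c l f n, ∀ a, e'.1 a.1 = (u a).1 := ⟨e, fun _ => rfl⟩
  have hpp : pp (e.1 i0) u = some hex.choose := dif_pos hex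
  have hg : g (e.1 i0) u = (H hex.choose).map (toLv n x0) := by
    simp only [g, hpp]
  have hHe : H hex.choose = H e := hH _ _ fun i hi => hex.choose_spec ⟨i, hi⟩
  refine (hy (e.1 i0) p).imp ?_
  rintro q hq ⟨x, hx, hb⟩
  refine ⟨x, hx, ?_⟩
  have h1 : (g (e.1 i0) u).r q (toLv n x0 v) := by
    rw [hg, hHe]
    exact ⟨v, (H e).mono hq hv, rfl⟩
  have h2 := hb q le_rfl u _ h1
  rw [← toLv_of (x0 := x0) hvn]
  exact h2

end Pool.Agent.Lib_helper73.MP
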