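import Pool.Agent.Lib_helper73.MP.Blk

/-!
# The cardinals
-/

namespace Pool.Agent.Lib_helper73.MP

open Set Cardinal Pool.Agent.Lib_helper27 Pool.Agent.MS

set_option linter.unusedSectionVars false
set_option linter.unusedVariables false

variable {Ω : Type} [LinearOrder Ω] [WellFoundedLT Ω] {c : ℕ → Ω} {l : ℕ}

theorem aleph0_le_lv (hc : Cards c l) (n : ℕ) : ℵ₀ ≤ #(Lv c n) := (hc.reg n).aleph0_le

theorem inst_inf (hc : Cards c l) (n : ℕ) : Infinite (Lv c n) :=
  Cardinal.infinite_iff.2 (aleph0_le_lv hc n)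

theorem lv_lt (hc : Cards c l) {a b : ℕ} (h : a < b) : #(Lv c a) < #(Lv c b) :=
  hc.init b (c a) (hc.mono h)

theorem lv_le (hc : Cards c l) {a b : ℕ} (h : a ≤ b) : #(Lv c a) ≤ #(Lv c b) := by
  rcases eq_or_lt_of_le h with rfl | h
  · exact le_rfl
  · exact (lv_lt hc h).le

theorem mk_Iic_lt (hc : Cards c l) {n : ℕ} (x : Lv c n) : #{y : Lv c n // y ≤ x} < #(Lv c n) := by
  have h1 : #{y : Lv c n // y ≤ x} ≤ #{y : Ω // y < x.1} + 1 := by
    have h2 : #{y : Lv c n // y ≤ x} ≤ #(Option {y : Ω // y < x.1}) := by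
      refine Cardinal.mk_le_of_injective (f := fun y => open Classical in
        if h : y.1.1 < x.1 then some ⟨y.1.1, h⟩ else none) ?_
      intro y y' h
      simp only at h
      split_ifs at h with h3 h4 h4
      · simp only [Option.some.injEq, Subtype.mk.injEq] at h
        exact Subtype.ext (Subtype.ext h)
      · have h5 : y.1.1 = x.1 := le_antisymm y.2 (not_lt.1 h3)
        have h6 : y'.1.1 = x.1 := le_antisymm y'.2 (not_lt.1 h4)
        exact Subtype.ext (Subtype.ext (h5.trans h6.symm))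
    rwa [Cardinal.mk_option] at h2
  have h3 := hc.init n x.1 x.2
  have h4 := aleph0_le_lv hc n
  exact h1.trans_lt (Cardinal.add_lt_of_lt h4 h3 (Cardinal.one_lt_aleph0.trans_le h4))

theorem exists_gt_lv (hc : Cards c l) {n : ℕ} (x : Lv c n) : ∃ y : Lv c n, x < y := by
  by_contra hcon
  push Not at hcon
  have h1 := mk_Iic_lt hc x
  have h2 : #(Lv c n) ≤ #{y : Lv c n // y ≤ x} :=
    Cardinal.mk_le_of_injective (f := fun y => (⟨y, hcon y⟩ : {y : Lv c n // y ≤ x}))
      (fun a b h => by simpa using h)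
  exact absurd h1 (not_lt.2 h2)

/-- families of size less than `κ_n` are bounded -/
theorem exists_bd (hc : Cards c l) {n : ℕ} {I : Type} (hI : #I < #(Lv c n)) (g : I → Lv c n) :
    ∃ b : Lv c n, ∀ i, g i < b := by
  by_contra hcon
  push Not at hcon
  have h1 : #(Lv c n) ≤ Cardinal.sum fun i => #{y : Lv c n // y ≤ g i} := by
    rw [← Cardinal.mk_sigma]
    choose i hi using hcon
    exact Cardinal.mk_le_of_injective (f := fun y =>
      (⟨i y, y, hi y⟩ : Σ i, {y : Lv c n // y ≤ g i})) (fun a b h => by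
        have := congrArg (fun z : Σ i, {y : Lv c n // y ≤ g i} => z.2.1) h
        exact this)
  have h2 := Cardinal.sum_lt_of_isRegular (hc.reg n) hI fun i => mk_Iic_lt hc (g i)
  exact absurd h1 (not_le.2 h2)

theorem lt_of_le_theta (hc : Cards c l) {I : Type} (hI : #I ≤ #(Lv c l)) {m : ℕ} (hm : l < m) :
    #I < #(Lv c m) := hI.trans_lt (lv_lt hc hm)

/-- finite products of small sets are small -/
theorem mk_pi_le {I : Type} [Finite I] (A : I → Type) {κ : Cardinal.{0}} (hκ : ℵ₀ ≤ κ)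
    (h : ∀ i, #(A i) ≤ κ) : #(∀ i, A i) ≤ κ := by
  cases nonempty_fintype I
  rw [Cardinal.mk_pi]
  calc Cardinal.prod (fun i => #(A i)) ≤ Cardinal.prod (fun _ : I => κ) :=
        Cardinal.prod_le_prod _ _ h
    _ ≤ κ := by
        rw [Cardinal.prod_const]
        simp only [Cardinal.mk_fintype, Cardinal.lift_id]
        exact_mod_cast Cardinal.power_nat_le hκ

/-- finite products of sets of size less than `κ_n` -/
theorem mk_pi_lt {I : Type} [Finite I] (A : I → Type) {κ : Cardinal.{0}} (hκ : ℵ₀ < κ)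
    (h : ∀ i, #(A i) < κ) : #(∀ i, A i) < κ := by
  cases nonempty_fintype I
  classical
  have hex : ∃ μ, ℵ₀ ≤ μ ∧ μ < κ ∧ ∀ i, #(A i) ≤ μ := by
    by_cases hI : Nonempty I
    · obtain ⟨i, hi⟩ := Finite.exists_max (fun i => #(A i))
      exact ⟨max ℵ₀ #(A i), le_max_left _ _, max_lt hκ (h i), fun j => (hi j).trans (le_max_right _ _)⟩
    · exact ⟨ℵ₀, le_rfl, hκ, fun i => absurd ⟨i⟩ hI⟩
  obtain ⟨μ, h1, h2, h3⟩ := hex
  exact (mk_pi_le A h1 h3).trans_lt h2

theorem mk_leaf_le (hc : Cards c l) {f : ℕ → ℕ} (hf : ∀ n, f n ≤ l) :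
    #(Leaf c f) ≤ #(Lv c l) := by
  rw [Cardinal.mk_sigma]
  have h1 : Cardinal.sum (fun n : ℕ => #(Lv c (f n))) ≤
      Cardinal.sum (fun _ : ℕ => #(Lv c l)) := Cardinal.sum_le_sum _ _ fun n => lv_le hc (hf n)
  refine h1.trans ?_
  rw [Cardinal.sum_const, Cardinal.mk_nat]
  simp only [Cardinal.lift_id]
  calc ℵ₀ * #(Lv c l) ≤ #(Lv c l) * #(Lv c l) := mul_le_mul' (aleph0_le_lv hc l) le_rfl
    _ = #(Lv c l) := Cardinal.mul_eq_self (aleph0_le_lv hc l)

theorem mk_finset_leaf_le (hc : Cards c l) {f : ℕ → ℕ} (hf : ∀ n, f n ≤ l) :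
    #(Finset (Leaf c f)) ≤ #(Lv c l) := by
  have : Infinite (Leaf c f) := by
    have := inst_inf hc (f 0)
    exact Infinite.of_injective (fun x : Lv c (f 0) => (⟨0, x⟩ : Leaf c f)) (by
      intro a b h
      simpa using h)
  rw [Cardinal.mk_finset_of_infinite]
  exact mk_leaf_le hc hf

theorem mk_prod_le {θ : Cardinal.{0}} (hθ : ℵ₀ ≤ θ) {A B : Type} (hA : #A ≤ θ) (hB : #B ≤ θ) :
    #(A × B) ≤ θ := by
  rw [Cardinal.mk_prod]
  simp only [Cardinal.lift_id]
  calc #A * #B ≤ θ * θ := mul_le_mul' hA hB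
    _ = θ := Cardinal.mul_eq_self hθ

theorem mk_nat_le' {θ : Cardinal.{0}} (hθ : ℵ₀ ≤ θ) : #ℕ ≤ θ := by simpa using hθ

end Pool.Agent.Lib_helper73.MP
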