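import Pool.Agent.Lib_helper73.MP.Lim

/-!
# The closed set
-/

namespace Pool.Agent.Lib_helper73.MP

open Set Cardinal Pool.Agent.Lib_helper27 Pool.Agent.MS

set_option linter.unusedSectionVars false
set_option linter.unusedVariables false

variable {P : Type} [Preorder P] {Ω : Type} [LinearOrder Ω] [WellFoundedLT Ω] {c : ℕ → Ω} {l : ℕ}
  {f : ℕ → ℕ} {B : ℕ → BSys P #(Lv c l) (Pt c l f)} {X : Set ℕ} {k : ℕ} {J : Type}
  {F : J → List Ω → Nm P Ω} {x0 : ∀ n, Lv c n}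

/-- the properties of the function `g` found for `H` at the block above `n` -/
def EOk (n m : ℕ) (X : Set ℕ) (g : Pt c l f → Nm P Ω) : Prop :=
  (∃ A' : Finset (Leaf c f), FinL A' g ∧ ∀ a ∈ A', a.1 ∈ YY l X ∧ a.1 < n) ∧
    ∀ e p v, (g e).r p v → v < c m

/-- the conditions on the point chosen for the block above `n` -/
structure Good (L : Lim B X k F x0) (n : ℕ) (q : P) (y : Pt c l f) : Prop where
  elim : ∀ m, ∀ H ∈ L.N, ∀ A, DRel X n m H A → ∃ g ∈ L.N, EOk n m X g ∧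
    ∀ e, Nm.Eqv q (H (asg X n y e)) (g e)
  big : ∀ m, ∀ H ∈ L.N, ∀ A, BRel X n m H A → Bnd m q (H y) (y m)

theorem Good.mono {L : Lim B X k F x0} {n : ℕ} {q q' : P} {y : Pt c l f} (h : Good L n q y)
    (hq : q' ≤ q) : Good L n q' y := by
  refine ⟨fun m H hH A hrel => ?_, fun m H hH A hrel => (h.big m H hH A hrel).mono hq⟩
  obtain ⟨g, h1, h2, h3⟩ := h.elim m H hH A hrel
  exact ⟨g, h1, h2, fun e => (h3 e).mono hq⟩

theorem exists_good (hc : Cards c l) (hf : ∀ n, f n ≤ l) (hP : Cl P #(Lv c l))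
    (L : Lim B X k F x0) : ∃ q, q ≤ L.r.p ∧ ∀ n, ∃ y, Good L n q y := by
  classical
  have hb : ℵ₀ ≤ #(Lv c l) := aleph0_le_lv hc l
  have h := loc_forall hP (mk_nat_le' hb) (fun n q => ∃ y, Good L n q y) L.r.p (by
    intro n q hq
    let I : Type := ℕ × (L.N × Finset (Leaf c f))
    have hI : #I ≤ #(Lv c l) := mk_prod_le hb (mk_nat_le' hb)
      (mk_prod_le hb L.card (mk_finset_leaf_le hc hf))
    choose g hg1 hg2 using fun (i : I) (h : DRel X n i.1 i.2.1.1 i.2.2) =>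
      L.dcd n i.1 i.2.1.1 i.2.1.2 i.2.2 h
    let φ : I → P → Pt c l f → Prop := fun i q y =>
      (∀ h : DRel X n i.1 i.2.1.1 i.2.2, ∀ e, Nm.Eqv q (i.2.1.1 (asg X n y e)) (g i h e)) ∧
      (BRel X n i.1 i.2.1.1 i.2.2 → Bnd i.1 q (i.2.1.1 y) (y i.1))
    have hφ : ∀ i, Mn (φ i) := fun i p q hq y h => ⟨fun h' e => (h.1 h' e).mono hq,
      fun h' => (h.2 h').mono hq⟩
    have hall : ∀ i, (B n).All L.r.p (L.r.x n) (φ i) := by
      intro i
      have hm1 : Mn fun q (y : Pt c l f) => ∀ h : DRel X n i.1 i.2.1.1 i.2.2, ∀ e,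
          Nm.Eqv q (i.2.1.1 (asg X n y e)) (g i h e) := fun p q hq y h h' e => (h h' e).mono hq
      have hm2 : Mn fun q (y : Pt c l f) => BRel X n i.1 i.2.1.1 i.2.2 →
          Bnd i.1 q (i.2.1.1 y) (y i.1) := fun p q hq y h h' => (h h').mono hq
      refine (B n).All_imp ?_ (hφ i) ?_ ((B n).All_and hP (two_le hb) hm1 hm2 ?_ ?_)
      · exact fun p q hq y h => ⟨hm1 hq h.1, hm2 hq h.2⟩
      · exact fun q _ y h => Loc.pure fun r hr => ⟨hm1 hr h.1, hm2 hr h.2⟩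
      · by_cases h : DRel X n i.1 i.2.1.1 i.2.2
        · refine (B n).All_imp (mn_dok _ _ _ _) hm1 ?_ (hg2 i h).2.2
          exact fun q _ y h1 => Loc.pure fun r hr _ => mn_dok _ _ _ _ hr h1
        · exact (B n).All_univ hm1 fun q _ y => Loc.pure fun r _ h' => absurd h' h
      · by_cases h : BRel X n i.1 i.2.1.1 i.2.2
        · refine (B n).All_imp (mn_BndB _) hm2 ?_ (L.big n i.1 i.2.1.1 i.2.1.2 i.2.2 h)
          exact fun q _ y h1 => Loc.pure fun r hr _ => h1.mono hr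
        · exact (B n).All_univ hm2 fun q _ y => Loc.pure fun r _ h' => absurd h' h
    have hall2 := (B n).All_forall hP hI φ hφ hall
    have hmn : Mn fun q y => ∀ i, φ i q y := fun p q hq y h i => hφ i hq (h i)
    obtain ⟨q', hq', y, hy⟩ := (B n).All_ex ((B n).ok_mono hq (L.r.ok n)) hmn
      ((B n).All_mono hq hmn hall2)
    refine ⟨q', hq', y, ⟨fun m H hH A hrel => ?_, fun m H hH A hrel => ?_⟩⟩
    · exact ⟨g (m, (⟨H, hH⟩, A)) hrel, hg1 _ _, ⟨(hg2 _ _).1, (hg2 _ _).2.1⟩,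
        (hy (m, (⟨H, hH⟩, A))).1 hrel⟩
    · exact (hy (m, (⟨H, hH⟩, A))).2 hrel) (fun n r r' hr ⟨y, hy⟩ => ⟨y, hy.mono hr⟩)
  exact h.exists

/-- the block of `n` -/
noncomputable def bk (l : ℕ) (X : Set ℕ) (n : ℕ) : ℕ :=
  open Classical in Nat.findGreatest (fun x => x ∈ X ∨ x = l) (n - 1)

theorem bk_spec (hX : X.Infinite) {n : ℕ} (hn : l < n) :
    (bk l X n ∈ X ∨ bk l X n = l) ∧ bk l X n < n ∧ n ≤ nx X (bk l X n) := by
  classical
  have h1 : bk l X n ∈ X ∨ bk l X n = l :=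
    Nat.findGreatest_spec (P := fun x => x ∈ X ∨ x = l) (m := l) (n := n - 1) (by omega)
      (Or.inr rfl)
  have h2 : bk l X n ≤ n - 1 := Nat.findGreatest_le _
  refine ⟨h1, by omega, ?_⟩
  by_contra hcon
  push Not at hcon
  have h3 := nx_spec hX (bk l X n)
  have h4 : nx X (bk l X n) ≤ bk l X n :=
    Nat.le_findGreatest (P := fun x => x ∈ X ∨ x = l) (by omega) (Or.inl h3.1)
  omega

theorem bk_eq (hXl : ∀ x ∈ X, l < x) {x n : ℕ} (hx : x ∈ X ∨ x = l) (h1 : x < n)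
    (h2 : n < nx X x) : bk l X n = x := by
  classical
  have hxl : l ≤ x := by
    rcases hx with h | h
    · have := hXl x h
      omega
    · omega
  apply le_antisymm
  · by_contra hcon
    push Not at hcon
    have h3 : bk l X n ∈ X ∨ bk l X n = l :=
      Nat.findGreatest_spec (P := fun x => x ∈ X ∨ x = l) (m := x) (n := n - 1) (by omega) hx
    have h4 : bk l X n ≤ n - 1 := Nat.findGreatest_le _
    rcases h3 with h3 | h3
    · have := nx_le h3 hcon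
      omega
    · omega
  · exact Nat.le_findGreatest (P := fun x => x ∈ X ∨ x = l) (by omega) hx

/-- the point -/
noncomputable def cen (l : ℕ) (X : Set ℕ) (y : ℕ → Pt c l f) : Pt c l f := fun n => y (bk l X n) n

theorem asg_cen (hXl : ∀ x ∈ X, l < x) (y : ℕ → Pt c l f) {x : ℕ} (hx : x ∈ X ∨ x = l) :
    asg X x (y x) (cen l X y) = cen l X y := by
  funext n
  unfold asg
  split_ifs with h
  · unfold cen
    rw [bk_eq hXl hx h.1 h.2]
  · rfl

theorem elim_all (hX : X.Infinite) (hXl : ∀ x ∈ X, l < x) {L : Lim B X k F x0}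
    {y : ℕ → Pt c l f} {q : P} (hy : ∀ n, Good L n q (y n)) {z0 m : ℕ} (hz0 : z0 ∈ X)
    (hm : m ≤ z0) {H : Pt c l f → Nm P Ω} (hH : H ∈ L.N) (hv : ∀ e p v, (H e).r p v → v < c m) :
    ∃ g ∈ L.N, EOk z0 m X g ∧ Nm.Eqv q (H (cen l X y)) (g (cen l X y)) := by
  have key : ∀ z, z ∈ X → z0 ≤ z → ∀ H ∈ L.N, EOk z m X H →
      ∃ g ∈ L.N, EOk z0 m X g ∧ Nm.Eqv q (H (cen l X y)) (g (cen l X y)) := by
    intro z
    induction z using Nat.strong_induction_on with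
    | _ z ih =>
      intro hz hz0z H hH hs
      rcases eq_or_lt_of_le hz0z with rfl | hlt
      · exact ⟨H, hH, hs, Nm.Eqv.refl _ _⟩
      · have hz2 := hXl z hz
        obtain ⟨h1, h2, h3⟩ := bk_spec (l := l) hX hz2
        have h4 : z0 ≤ bk l X z := by
          classical
          exact Nat.le_findGreatest (P := fun x => x ∈ X ∨ x = l) (by omega) (Or.inl hz0)
        have h5 : bk l X z ∈ X := by
          rcases h1 with h1 | h1
          · exact h1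
          · have := hXl z0 hz0
            omega
        obtain ⟨⟨A, hA, hAX⟩, hsv⟩ := hs
        obtain ⟨g, g1, g2, g3⟩ := (hy (bk l X z)).elim m H hH A ⟨h5, by omega, hsv, hA, fun a ha =>
          ⟨(hAX a ha).1, by
            have := (hAX a ha).2
            omega⟩⟩
        obtain ⟨g', g1', g2', g3'⟩ := ih _ h2 h5 h4 g g1 g2
        refine ⟨g', g1', g2', Nm.Eqv.trans ?_ g3'⟩
        have := g3 (cen l X y)
        rwa [asg_cen hXl y (Or.inl h5)] at this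
  obtain ⟨A, hA, hAX⟩ := L.fs H hH
  obtain ⟨z, hz, hkz⟩ := hX.exists_gt (max (A.sup fun a => a.1) z0)
  refine key z hz ((le_max_right _ _).trans hkz.le) H hH ⟨⟨A, hA, fun a ha => ⟨hAX a ha, ?_⟩⟩, hv⟩
  exact lt_of_le_of_lt ((Finset.le_sup (f := fun a : Leaf c f => a.1) ha).trans (le_max_left _ _)) hkz

/-- Values below `κ_m` for `m ∈ X` are bounded by constants. -/
theorem bound_X (hX : X.Infinite) (hXl : ∀ x ∈ X, l < x) {L : Lim B X k F x0}
    {y : ℕ → Pt c l f} {q : P} (hq : q ≤ L.r.p) (hy : ∀ n, Good L n q (y n)) {m : ℕ} (hm : m ∈ X)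
    {σ : Lv c k → Lv c m} (hσ : ∀ H ∈ L.N, FinL ∅ H → ∀ e, ∃ v, (H e).r L.r.p v ∧
      (v < c m → ∃ i, v < (σ i).1))
    {H : Pt c l f → Nm P Ω} (hH : H ∈ L.N) {q' : P} (hq' : q' ≤ q) {v : Ω}
    (hv : (H (cen l X y)).r q' v) (hvm : v < c m) : ∃ i, v < (σ i).1 := by
  obtain ⟨g, h1, ⟨⟨A, hA, hAX⟩, hgv⟩, h2⟩ := elim_all hX hXl hy hm (le_refl m) (L.cut m H hH)
    (fun e p v h => cut_lt h)
  have hml := hXl m hm
  obtain ⟨H', h3, h4, h5, h6⟩ := L.supl m hml g h1 A hA fun a ha => (hAX a ha).1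
  have h7 : A.filter (fun a => m ≤ a.1) = ∅ := by
    rw [Finset.filter_eq_empty_iff]
    intro a ha
    have := (hAX a ha).2
    omega
  rw [h7] at h4
  obtain ⟨w, hw1, hw2⟩ := hσ H' h3 h4 (cen l X y)
  obtain ⟨q1, hq1, v1, hv1, hv2⟩ := (h2.mono hq').exists
  have hv3 : v1 = v := (cut m (x0 m) H (cen l X y)).uniq hv1
    ((cut m (x0 m) H (cen l X y)).mono hq1 (cut_of hv hvm))
  subst hv3
  obtain ⟨q2, hq2, w', hw', hvw⟩ := (h6 _ _ _ hv2 hvm).exists
  have hww : w' = w := (H' (cen l X y)).uniq hw'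
    ((H' (cen l X y)).mono (hq2.trans (hq1.trans (hq'.trans hq))) hw1)
  subst hww
  obtain ⟨i, hi⟩ := hw2 (h5 _ _ _ hw1)
  exact ⟨i, lt_of_le_of_lt hvw hi⟩

/-- Values below `κ_m` for `m ∉ X` are bounded by the coordinate `m` of the point. -/
theorem bound_Y (hX : X.Infinite) (hXl : ∀ x ∈ X, l < x) {L : Lim B X k F x0}
    {y : ℕ → Pt c l f} {q : P} (hy : ∀ n, Good L n q (y n)) {m : ℕ} (hml : l < m) (hm : m ∉ X)
    {H : Pt c l f → Nm P Ω} (hH : H ∈ L.N) {q' : P} (hq' : q' ≤ q) {v : Ω}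
    (hv : (H (cen l X y)).r q' v) (hvm : v < c m) : ∃ i, v < ((cen l X y m).1 i).1 := by
  obtain ⟨hb1, hb2, hb3⟩ := bk_spec (l := l) hX hml
  set x := bk l X m with hxdef
  obtain ⟨hn1, hn2⟩ := nx_spec hX x
  have hmn : m < nx X x := lt_of_le_of_ne hb3 fun h => hm (h ▸ hn1)
  obtain ⟨g, h1, ⟨⟨A, hA, hAX⟩, hgv⟩, h2⟩ := elim_all hX hXl hy hn1 hmn.le (L.cut m H hH)
    (fun e p v h => cut_lt h)
  obtain ⟨H', h3, h4, h5, h6⟩ := L.supl m hml g h1 A hA fun a ha => (hAX a ha).1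
  have h8 : H' (cen l X y) = H' (y x) := by
    refine h4 _ _ fun a ha => ?_
    rw [Finset.mem_filter] at ha
    have h9 := (hAX a ha.1).2
    have h10 : x < a.1 := lt_of_lt_of_le hb2 ha.2
    unfold cen
    rw [bk_eq hXl hb1 h10 h9]
  have h11 : cen l X y m = y x m := by
    unfold cen
    rw [← hxdef]
  have hbnd := (hy x).big m H' h3 (A.filter fun a => m ≤ a.1) ⟨hb1, hb2, hmn, h4, fun a ha => by
    rw [Finset.mem_filter] at ha
    exact ⟨ha.2, (hAX a ha.1).2⟩⟩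
  obtain ⟨q1, hq1, v1, hv1, hv2⟩ := (h2.mono hq').exists
  have hv3 : v1 = v := (cut m (x0 m) H (cen l X y)).uniq hv1
    ((cut m (x0 m) H (cen l X y)).mono hq1 (cut_of hv hvm))
  subst hv3
  obtain ⟨q2, hq2, w', hw', hvw⟩ := (h6 _ _ _ hv2 hvm).exists
  rw [h8] at hw'
  obtain ⟨i, hi⟩ := hbnd q2 (hq2.trans (hq1.trans hq')) w' hw' (h5 _ _ _ hw')
  rw [h11]
  exact ⟨i, lt_of_le_of_lt hvw hi⟩

end Pool.Agent.Lib_helper73.MP
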