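import Pool.Agent.Lib_helper73.MP.Sys

/-!
# The product of two systems
-/

namespace Pool.Agent.Lib_helper73.MP

open Set Cardinal Pool.Agent.Lib_helper27 Pool.Agent.MS

set_option linter.unusedSectionVars false
set_option linter.unusedVariables false

variable {P : Type} [Preorder P] {θ : Cardinal.{0}} {E : ℕ → Type}

section

variable (S : BSys P θ (∀ n, E n)) (a : ℕ) (T : BSys P θ (E a))

/-- for almost all `e` in the sense of `c`, for almost all `s` in the sense of `ρ e`: `φ (e, s)` -/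
def xAll (p : P) (x : S.C × ((∀ n, E n) → Nm P T.C)) (φ : P → (∀ n, E n) → Prop) : Prop :=
  S.All p x.1 fun q e => ∃ d, (x.2 e).r q d ∧ T.All q d fun r s => φ r (Function.update e a s)

def xok (p : P) (x : S.C × ((∀ n, E n) → Nm P T.C)) : Prop :=
  S.ok p x.1 ∧ S.All p x.1 fun q e => ∃ d, (x.2 e).r q d ∧ T.ok q d

def xle (p : P) (x' x : S.C × ((∀ n, E n) → Nm P T.C)) : Prop :=
  S.le p x'.1 x.1 ∧ S.All p x'.1 fun q e => ∃ d' d, (x'.2 e).r q d' ∧ (x.2 e).r q d ∧ T.le q d' d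

theorem mn_upd {φ : P → (∀ n, E n) → Prop} (hφ : Mn φ) (e : ∀ n, E n) :
    Mn (fun r (s : E a) => φ r (Function.update e a s)) := fun _ _ hq _ h => hφ hq h

theorem mn_xAll {φ : P → (∀ n, E n) → Prop} (hφ : Mn φ) (ρ : (∀ n, E n) → Nm P T.C) :
    Mn (fun q e => ∃ d, (ρ e).r q d ∧ T.All q d fun r s => φ r (Function.update e a s)) := by
  rintro p q hq e ⟨d, h1, h2⟩
  exact ⟨d, (ρ e).mono hq h1, T.All_mono hq (mn_upd a hφ e) h2⟩

theorem mn_xok (ρ : (∀ n, E n) → Nm P T.C) :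
    Mn (fun q e => ∃ d, (ρ e).r q d ∧ T.ok q d) := by
  rintro p q hq e ⟨d, h1, h2⟩
  exact ⟨d, (ρ e).mono hq h1, T.ok_mono hq h2⟩

theorem mn_xle (ρ' ρ : (∀ n, E n) → Nm P T.C) :
    Mn (fun q e => ∃ d' d, (ρ' e).r q d' ∧ (ρ e).r q d ∧ T.le q d' d) := by
  rintro p q hq e ⟨d', d, h1, h2, h3⟩
  exact ⟨d', d, (ρ' e).mono hq h1, (ρ e).mono hq h2, T.le_mono hq h3⟩

theorem two_le (hθ : ℵ₀ ≤ θ) : (2 : Cardinal.{0}) ≤ θ :=
  (Cardinal.natCast_lt_aleph0 (n := 2)).le.trans hθ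

/-- The product system: add the coordinate `a` below. -/
def BSys.ext (hP : Cl P θ) (hθ : ℵ₀ ≤ θ) : BSys P θ (∀ n, E n) where
  C := S.C × ((∀ n, E n) → Nm P T.C)
  ok := xok S a T
  le := xle S a T
  All := xAll S a T
  ok_mono := fun hq h => ⟨S.ok_mono hq h.1, S.All_mono hq (mn_xok a T _) h.2⟩
  le_mono := fun hq h => ⟨S.le_mono hq h.1, S.All_mono hq (mn_xle a T _ _) h.2⟩
  All_mono := fun hq hφ h => S.All_mono hq (mn_xAll a T hφ _) h
  le_refl := fun {p x} h => by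
    refine ⟨S.le_refl h.1, S.All_imp (mn_xok a T _) (mn_xle a T _ _) ?_ h.2⟩
    rintro q _ e ⟨d, h1, h2⟩
    exact Loc.pure fun r hr => ⟨d, d, (x.2 e).mono hr h1, (x.2 e).mono hr h1,
      T.le_mono hr (T.le_refl h2)⟩
  le_trans := fun {p x x' x''} h h' => by
    have h2 : (2 : Cardinal.{0}) ≤ θ := two_le hθ
    refine ⟨S.le_trans h.1 h'.1, ?_⟩
    refine S.All_imp ?_ (mn_xle a T _ _) ?_ (S.All_and hP h2 (mn_xle a T _ _) (mn_xle a T _ _) h.2
      (S.All_le h.1 (mn_xle a T _ _) h'.2))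
    · rintro p q hq e ⟨h3, h4⟩
      exact ⟨mn_xle a T _ _ hq h3, mn_xle a T _ _ hq h4⟩
    · rintro q _ e ⟨⟨d1, d2, h3, h4, h5⟩, d3, d4, h6, h7, h8⟩
      obtain rfl := (x'.2 e).uniq h4 h6
      exact Loc.pure fun r hr => ⟨d1, d4, (x''.2 e).mono hr h3, (x.2 e).mono hr h7,
        T.le_mono hr (T.le_trans h5 h8)⟩
  All_le := fun {p x x' φ} h hφ h' => by
    have h2 : (2 : Cardinal.{0}) ≤ θ := two_le hθ
    refine S.All_imp ?_ (mn_xAll a T hφ _) ?_ (S.All_and hP h2 (mn_xle a T _ _)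
      (mn_xAll a T hφ _) h.2 (S.All_le h.1 (mn_xAll a T hφ _) h'))
    · rintro p q hq e ⟨h3, h4⟩
      exact ⟨mn_xle a T _ _ hq h3, mn_xAll a T hφ _ hq h4⟩
    · rintro q _ e ⟨⟨d1, d2, h3, h4, h5⟩, d3, h6, h7⟩
      obtain rfl := (x.2 e).uniq h4 h6
      refine Loc.pure fun r hr => ⟨d1, (x'.2 e).mono hr h3, ?_⟩
      exact T.All_le (T.le_mono hr h5) (mn_upd a hφ e) (T.All_mono hr (mn_upd a hφ e) h7)
  All_imp := fun {p x φ ψ} hφ hψ h h' => by
    refine S.All_imp (mn_xAll a T hφ _) (mn_xAll a T hψ _) ?_ h'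
    rintro q hq e ⟨d, h3, h4⟩
    refine Loc.pure fun r hr => ⟨d, (x.2 e).mono hr h3, ?_⟩
    refine T.All_imp (mn_upd a hφ e) (mn_upd a hψ e) ?_ (T.All_mono hr (mn_upd a hφ e) h4)
    exact fun q' hq' s hs => h q' (hq'.trans (hr.trans hq)) _ hs
  All_inter := fun {p x I} hI φ hφ h => by
    have hmn : ∀ i, Mn (fun q e => ∃ d, (x.2 e).r q d ∧
        T.All q d fun r s => φ i r (Function.update e a s)) := fun i => mn_xAll a T (hφ i) _
    have h1 := S.All_forall hP hI _ hmn h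
    have h2 : S.All p x.1 (fun q e => ∃ d, (x.2 e).r q d) := by
      refine S.All_univ ?_ fun q _ e => (x.2 e).loc q
      rintro p q hq e ⟨d, hd⟩
      exact ⟨d, (x.2 e).mono hq hd⟩
    have h22 : (2 : Cardinal.{0}) ≤ θ := two_le hθ
    refine S.All_imp ?_ ?_ ?_ (S.All_and hP h22 ?_ ?_ h1 h2)
    · rintro p q hq e ⟨h3, d, h4⟩
      exact ⟨fun i => hmn i hq (h3 i), d, (x.2 e).mono hq h4⟩
    · exact mn_xAll a T (φ := fun q e => ∀ i, Loc q fun r => φ i r e)
        (fun p q hq e h3 i => (h3 i).mono hq) x.2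
    · rintro q hq e ⟨h3, d, h4⟩
      refine Loc.pure fun r hr => ⟨d, (x.2 e).mono hr h4, ?_⟩
      refine T.All_inter hI (fun i r s => φ i r (Function.update e a s))
        (fun i => mn_upd a (hφ i) e) fun i => ?_
      obtain ⟨d', h5, h6⟩ := h3 i
      obtain rfl := (x.2 e).uniq h4 h5
      exact T.All_mono hr (mn_upd a (hφ i) e) h6
    · intro p q hq e h3 i
      exact hmn i hq (h3 i)
    · rintro p q hq e ⟨d, h4⟩
      exact ⟨d, (x.2 e).mono hq h4⟩
  All_ex := fun {p x φ} h hφ h' => by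
    have h2 : (2 : Cardinal.{0}) ≤ θ := two_le hθ
    have h3 := S.All_and hP h2 (mn_xok a T _) (mn_xAll a T hφ _) h.2 h'
    obtain ⟨q, hq, e, ⟨d, h4, h5⟩, d', h6, h7⟩ := S.All_ex h.1 (by
      rintro p q hq e ⟨h3, h4⟩
      exact ⟨mn_xok a T _ hq h3, mn_xAll a T hφ _ hq h4⟩) h3
    obtain rfl := (x.2 e).uniq h4 h6
    obtain ⟨r, hr, s, hs⟩ := T.All_ex h5 (mn_upd a hφ e) h7
    exact ⟨r, hr.trans hq, _, hs⟩
  cl := fun {p} I _ _ hI s hok hle => by
    obtain ⟨q, hq, c, hc, hcle⟩ := S.cl I hI (fun i => (s i).1) (fun i => (hok i).1)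
      (fun i j hij => (hle i j hij).1)
    by_cases hne : Nonempty I
    swap
    · -- the empty sequence
      have hcode : ∀ q, ∃ r, r ≤ q ∧ ∃ d : T.C, T.ok r d := by
        intro q
        obtain ⟨r, hr, d, hd, _⟩ := T.cl (p := q) Empty (by simp) (fun i => i.elim)
          (fun i => i.elim) (fun i => i.elim)
        exact ⟨r, hr, d, hd⟩
      have : Nonempty T.C := by
        obtain ⟨_, _, d, _⟩ := hcode q
        exact ⟨d⟩
      obtain ⟨y, hy⟩ := exists_mixN (fun q (d : T.C) => T.ok q d) (fun hq h => T.ok_mono hq h)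
      refine ⟨q, hq, (c, fun _ => y), ⟨hc, ?_⟩, fun i => absurd ⟨i⟩ hne⟩
      refine S.All_univ (mn_xok a T _) fun r hr e => ?_
      exact hy r fun r' _ => hcode r'
    have hTC : Nonempty T.C := by
      obtain ⟨i⟩ := hne
      obtain ⟨r, _, e, d, _⟩ := S.All_ex (hok i).1 (mn_xok a T _) (hok i).2
      exact ⟨d⟩
    -- the good codes for the coordinate `a`
    let D : (∀ n, E n) → P → T.C → Prop := fun e r d => T.ok r d ∧
      ∀ i, ∃ di, ((s i).2 e).r r di ∧ T.le r d di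
    have hD : ∀ e, ∀ {p q : P} {z : T.C}, q ≤ p → D e p z → D e q z := by
      rintro e p q z hq ⟨h1, h2⟩
      refine ⟨T.ok_mono hq h1, fun i => ?_⟩
      obtain ⟨di, h3, h4⟩ := h2 i
      exact ⟨di, ((s i).2 e).mono hq h3, T.le_mono hq h4⟩
    choose ρ hρ using fun e => exists_mixN (D e) (hD e)
    have hII : #(I × I) ≤ θ := by
      rw [Cardinal.mk_prod]
      simp only [Cardinal.lift_id]
      calc #I * #I ≤ θ * θ := mul_le_mul' hI hI
        _ = θ := Cardinal.mul_eq_self hθ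
    have h1 : S.All q c fun r e => ∀ i : I, ∃ d, ((s i).2 e).r r d ∧ T.ok r d :=
      S.All_forall hP hI _ (fun i => mn_xok a T _) fun i =>
        S.All_le (hcle i) (mn_xok a T _) (S.All_mono hq (mn_xok a T _) (hok i).2)
    have h2 : S.All q c fun r e => ∀ ij : I × I, ij.1 ≤ ij.2 → ∃ d' d, ((s ij.2).2 e).r r d' ∧
        ((s ij.1).2 e).r r d ∧ T.le r d' d := by
      refine S.All_forall hP hII _ ?_ ?_
      · rintro ij p q hq e h hij
        exact mn_xle a T _ _ hq (h hij)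
      · rintro ⟨i, j⟩
        by_cases hij : i ≤ j
        · have := S.All_le (hcle j) (mn_xle a T _ _)
            (S.All_mono hq (mn_xle a T _ _) (hle i j hij).2)
          refine S.All_imp (mn_xle a T _ _) ?_ ?_ this
          · rintro p q hq e h hij
            exact mn_xle a T _ _ hq (h hij)
          · intro r _ e h
            exact Loc.pure fun r' hr' _ => mn_xle a T _ _ hr' h
        · refine S.All_univ ?_ ?_
          · rintro p q hq e h hij
            exact mn_xle a T _ _ hq (h hij)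
          · intro r _ e
            exact Loc.pure fun r' _ h => absurd h hij
    have h22 : (2 : Cardinal.{0}) ≤ θ := two_le hθ
    have hm1 : Mn fun r e => ∀ i : I, ∃ d, ((s i).2 e).r r d ∧ T.ok r d :=
      fun p q hq e h i => mn_xok a T _ hq (h i)
    have hm2 : Mn fun r e => ∀ ij : I × I, ij.1 ≤ ij.2 → ∃ d' d, ((s ij.2).2 e).r r d' ∧
        ((s ij.1).2 e).r r d ∧ T.le r d' d := fun p q hq e h ij hij => mn_xle a T _ _ hq (h ij hij)
    have h3 := S.All_and hP h22 hm1 hm2 h1 h2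
    have hmD : Mn fun r e => ∃ d, (ρ e).r r d ∧ D e r d := by
      rintro p q hq e ⟨d, h4, h5⟩
      exact ⟨d, (ρ e).mono hq h4, hD e hq h5⟩
    have h4 : S.All q c fun r e => ∃ d, (ρ e).r r d ∧ D e r d := by
      refine S.All_imp ?_ hmD ?_ h3
      · intro p q hq e h
        exact ⟨hm1 hq h.1, hm2 hq h.2⟩
      · rintro r hr e ⟨h5, h6⟩
        choose d hd1 hd2 using h5
        refine hρ e r fun r' hr' => ?_
        obtain ⟨q', hq', d', hd', hdle⟩ := T.cl (p := r') I hI d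
          (fun i => T.ok_mono hr' (hd2 i)) (by
            intro i j hij
            obtain ⟨dj, di, h7, h8, h9⟩ := h6 (i, j) hij
            obtain rfl := ((s j).2 e).uniq (hd1 j) h7
            obtain rfl := ((s i).2 e).uniq (hd1 i) h8
            exact T.le_mono hr' h9)
        exact ⟨q', hq', d', hd', fun i => ⟨d i, ((s i).2 e).mono (hq'.trans hr') (hd1 i), hdle i⟩⟩
    refine ⟨q, hq, (c, ρ), ⟨hc, S.All_imp hmD (mn_xok a T _) ?_ h4⟩, fun i => ⟨hcle i,
      S.All_imp hmD (mn_xle a T _ _) ?_ h4⟩⟩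
    · rintro r _ e ⟨d, h5, h6⟩
      exact Loc.pure fun r' hr' => ⟨d, (ρ e).mono hr' h5, T.ok_mono hr' h6.1⟩
    · rintro r _ e ⟨d, h5, h6⟩
      obtain ⟨di, h7, h8⟩ := h6.2 i
      exact Loc.pure fun r' hr' => ⟨d, di, (ρ e).mono hr' h5, ((s i).2 e).mono hr' h7,
        T.le_mono hr' h8⟩

end

end Pool.Agent.Lib_helper73.MP
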