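import Pool.Agent.Lib_helper73.MP.Step

/-!
# The limit of the recursion
-/

namespace Pool.Agent.Lib_helper73.MP

open Set Cardinal Pool.Agent.Lib_helper27 Pool.Agent.MS

set_option linter.unusedSectionVars false
set_option linter.unusedVariables false

variable {P : Type} [Preorder P] {Ω : Type} [LinearOrder Ω] [WellFoundedLT Ω] {c : ℕ → Ω} {l : ℕ}
  {f : ℕ → ℕ}

/-- The result of the recursion of length `κ_k`. -/
structure Lim (B : ℕ → BSys P #(Lv c l) (Pt c l f)) (X : Set ℕ) (k : ℕ) {J : Type}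
    (F : J → List Ω → Nm P Ω) (x0 : ∀ n, Lv c n) where
  N : Set (Pt c l f → Nm P Ω)
  card : #N ≤ #(Lv c l)
  fs : ∀ H ∈ N, ∃ A : Finset (Leaf c f), FinL A H ∧ ∀ a ∈ A, a.1 ∈ YY l X
  r : Cd B
  dcd : ∀ n m, ∀ H ∈ N, ∀ A, DRel X n m H A → ∃ g ∈ N, DOk X n m H g r
  big : ∀ n m, ∀ H ∈ N, ∀ A, BRel X n m H A → BOk n m H r
  alg : ∀ j, ∀ L : List (Pt c l f → Nm P Ω), (∀ H ∈ L, H ∈ N) → app (F j) L ∈ N
  cut : ∀ m, ∀ H ∈ N, cut m (x0 m) H ∈ N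
  supl : ∀ m, l < m → ∀ H ∈ N, ∀ A : Finset (Leaf c f), FinL A H → (∀ a ∈ A, a.1 ∈ YY l X) →
    ∃ H' ∈ N, SOk m (A.filter fun a => m ≤ a.1) H H'
  crd : ∀ a : Leaf c f, a.1 ∈ YY l X → crd a ∈ N
  bet : ∀ m, l < m → ∃ σ : Lv c k → Lv c m, StrictMono σ ∧ (∀ i, cst (σ i).1 ∈ N) ∧
    ∀ H ∈ N, FinL ∅ H → ∀ e, ∃ v, (H e).r r.p v ∧ (v < c m → ∃ i, v < (σ i).1)

variable {B : ℕ → BSys P #(Lv c l) (Pt c l f)} {X : Set ℕ}

/-- The initial state. -/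
theorem exists_init (hc : Cards c l) (hf : ∀ n, f n ≤ l) (hP : Cl P #(Lv c l)) (p : P) :
    ∃ s : St B X, s.r.p ≤ p ∧ ∀ a : Leaf c f, a.1 ∈ YY l X → crd a ∈ s.N := by
  classical
  obtain ⟨r, hr⟩ := exists_cd hP (aleph0_le_lv hc l) B p
  refine ⟨⟨crd '' {a : Leaf c f | a.1 ∈ YY l X}, ?_, ?_, r⟩, hr, fun a ha => ⟨a, ha, rfl⟩⟩
  · exact Cardinal.mk_image_le.trans ((Cardinal.mk_subtype_le _).trans (mk_leaf_le hc hf))
  · rintro _ ⟨a, ha, rfl⟩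
    exact ⟨{a}, FinL.crd a, by simpa using ha⟩

theorem exists_lim (hc : Cards c l) (hf : ∀ n, f n ≤ l) (hP : Cl P #(Lv c l))
    (hB : ∀ m, Bdd P c m) (hXl : ∀ x ∈ X, l < x)
    (hD : ∀ n ∈ X, (B n).Dec #(Lv c (n - 1)) #(Lv c n))
    (hBig : ∀ n, n ∈ X ∨ n = l → ∀ m, n < m → m < nx X n → (B n).Big m (nx X n))
    {J : Type} [Countable J] (F : J → List Ω → Nm P Ω) (x0 : ∀ n, Lv c n)
    (hne : Nonempty (Pt c l f)) {k : ℕ} (hk : k ≤ l) (p : P) :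
    ∃ L : Lim B X k F x0, L.r.p ≤ p := by
  classical
  have hb : ℵ₀ ≤ #(Lv c l) := aleph0_le_lv hc l
  obtain ⟨s0, h0p, h0c⟩ := exists_init (B := B) (X := X) hc hf hP p
  choose next hnext using exists_step hc hf hP hB hXl hD hBig F x0
  obtain ⟨s, hs0, hs⟩ := exists_seq (St.cl (B := B) (X := X) hP hb) (Lv c k) (lv_le hc hk)
    (fun _ => next) (fun _ q => (hnext q).le) s0
  have hle : ∀ i j, j ≤ i → s i ≤ s j := by
    intro i j hj
    rcases eq_or_lt_of_le hj with rfl | h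
    · exact le_rfl
    · exact (hs i j h).trans (hnext _).le
  have hgt : ∀ i : Lv c k, ∃ j, i < j := fun i => exists_gt_lv hc i
  have hinf := inst_inf hc k
  obtain ⟨i0⟩ : Nonempty (Lv c k) := inferInstance
  let N : Set (Pt c l f → Nm P Ω) := ⋃ i, (s i).N
  have hmem : ∀ {H}, H ∈ N ↔ ∃ i, H ∈ (s i).N := by
    intro H
    simp only [N, mem_iUnion]
  obtain ⟨r, hr⟩ := Cd.cl (B := B) hP hb (Lv c k) (lv_le hc hk) (fun i => (s i).r)
    (fun i j h => (hle j i h).2)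
  have hrn : ∀ i, r ≤ (next (s i)).r := by
    intro i
    obtain ⟨j, hj⟩ := hgt i
    exact (hr j).trans (hs j i hj).2
  have hNn : ∀ i, (next (s i)).N ⊆ N := by
    intro i H hH
    obtain ⟨j, hj⟩ := hgt i
    exact hmem.2 ⟨j, (hs j i hj).1 hH⟩
  have hdir : ∀ L : List (Pt c l f → Nm P Ω), (∀ H ∈ L, H ∈ N) → ∃ i, ∀ H ∈ L, H ∈ (s i).N := by
    intro L
    induction L with
    | nil => exact fun _ => ⟨i0, by simp⟩
    | cons a L ih =>
      intro hL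
      obtain ⟨i, h1⟩ := hmem.1 (hL a (by simp))
      obtain ⟨j, h2⟩ := ih fun H hH => hL H (by simp [hH])
      refine ⟨max i j, fun H hH => ?_⟩
      rcases List.mem_cons.1 hH with rfl | hH
      · exact (hle (max i j) i (le_max_left _ _)).1 h1
      · exact (hle (max i j) j (le_max_right _ _)).1 (h2 H hH)
  have hrp : r.p ≤ p := (hr i0).1.trans ((hs0 i0).2.1.trans h0p)
  refine ⟨⟨N, ?_, ?_, r, ?_, ?_, ?_, ?_, ?_, ?_, ?_⟩, hrp⟩
  · refine (Cardinal.mk_iUnion_le _).trans ?_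
    calc #(Lv c k) * ⨆ i, #((s i).N) ≤ #(Lv c l) * #(Lv c l) :=
          mul_le_mul' (lv_le hc hk) (ciSup_le' fun i => (s i).card)
      _ = #(Lv c l) := Cardinal.mul_eq_self hb
  · intro H hH
    obtain ⟨i, h⟩ := hmem.1 hH
    exact (s i).fs H h
  · intro n m H hH A hrel
    obtain ⟨i, h⟩ := hmem.1 hH
    obtain ⟨g, hg, hok⟩ := (hnext (s i)).dcd n m H h A hrel
    exact ⟨g, hNn i hg, hok.mono (hrn i)⟩
  · intro n m H hH A hrel
    obtain ⟨i, h⟩ := hmem.1 hH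
    exact ((hnext (s i)).big n m H h A hrel).mono (hrn i)
  · intro j L hL
    obtain ⟨i, h⟩ := hdir L hL
    exact hNn i ((hnext (s i)).alg j L h)
  · intro m H hH
    obtain ⟨i, h⟩ := hmem.1 hH
    exact hNn i ((hnext (s i)).cut m H h)
  · intro m hm H hH A hA hAX
    obtain ⟨i, h⟩ := hmem.1 hH
    obtain ⟨H', h1, h2⟩ := (hnext (s i)).supl m hm H h A hA hAX
    exact ⟨H', hNn i h1, h2⟩
  · intro a ha
    exact hmem.2 ⟨i0, (hs0 i0).1 (h0c a ha)⟩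
  · intro m hm
    choose w hw1 hw2 using fun i => (hnext (s i)).bet m hm
    refine ⟨w, ?_, fun i => hNn i (hw1 i), ?_⟩
    · intro i j hij
      obtain ⟨e⟩ := hne
      have h1 : cst (w i).1 ∈ (s j).N := (hs j i hij).1 (hw1 i)
      obtain ⟨v, hv1, hv2⟩ := hw2 j _ h1 (FinL.cst _) e
      have hv3 : v = (w i).1 := hv1
      subst hv3
      exact hv2 (w i).2
    · intro H hH hfin e
      obtain ⟨i, h⟩ := hmem.1 hH
      obtain ⟨v, hv1, hv2⟩ := hw2 i H h hfin e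
      exact ⟨v, (H e).mono (hrn i).1 hv1, fun hv => ⟨i, hv2 hv⟩⟩

end Pool.Agent.Lib_helper73.MP
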