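import Pool.Agent.Lib_helper73.MP.Bound

/-!
# The systems at one coordinate
-/

namespace Pool.Agent.Lib_helper73.MP

open Set Cardinal Pool.Agent.Lib_helper27 Pool.Agent.MS

set_option linter.unusedSectionVars false
set_option linter.unusedVariables false

variable {P : Type} [Preorder P] {Ω : Type} [LinearOrder Ω] [WellFoundedLT Ω] {c : ℕ → Ω} {l : ℕ}
  {f : ℕ → ℕ}

/-- an increasing sequence as an element of `EE` -/
def emb {n : ℕ} (t : En c (f n) n) : EE c l f n := ⟨t.1, fun _ => t.2⟩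

/-- the system given by a system of sets -/
def ofSys {n : ℕ} {θ : Cardinal.{0}} (S : Pool.Agent.MS.Sys P (En c (f n) n)) (hS : S.Closed θ) :
    BSys P θ (EE c l f n) where
  C := S.C
  ok := S.good
  le := S.le
  All p h φ := ∀ q, q ≤ p → ∀ t, S.S q h t → Loc q fun r => φ r (emb t)
  ok_mono := S.good_mono
  le_mono := S.le_mono
  All_mono := fun hq _ h q' hq' => h q' (hq'.trans hq)
  le_refl := fun _ => S.le_refl _ _
  le_trans := S.le_trans
  All_le := fun hle _ h q hq t ht => h q hq t (S.S_le (S.le_mono hq hle) ht)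
  All_imp := fun _ _ h h' q hq t ht => (h' q hq t ht).bind fun r hr hφ =>
    h r (hr.trans hq) _ hφ
  All_inter := fun _ φ _ h q hq t ht => Loc.pure fun r hr i => (h i q hq t ht).mono hr
  All_ex := fun hok _ h => by
    obtain ⟨q, hq, t, ht⟩ := S.ne hok
    obtain ⟨r, hr, h'⟩ := (h q hq t ht).exists
    exact ⟨r, hr.trans hq, _, h'⟩
  cl := fun {p} I _ _ hI s hok hle => by
    obtain ⟨k, hk, hk'⟩ := hS I hI p s hok hle
    exact ⟨p, le_rfl, k, hk, hk'⟩

/-- a name from a random function which is total below `q` -/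
noncomputable def ofFN {U Z : Type} (g : FN P U Z) (q : P) (hg : g.Tot q) (z0 : Z) (u : U) :
    Nm P Z where
  r p z := (p ≤ q ∧ g.r p u z) ∨ ((¬ ∃ r, r ≤ p ∧ r ≤ q) ∧ z = z0)
  mono := by
    rintro p p' z hp (⟨h1, h2⟩ | ⟨h1, h2⟩)
    · exact Or.inl ⟨hp.trans h1, g.mono hp h2⟩
    · exact Or.inr ⟨fun ⟨r, hr, hr'⟩ => h1 ⟨r, hr.trans hp, hr'⟩, h2⟩
  uniq := by
    rintro p z z' (⟨h1, h2⟩ | ⟨h1, h2⟩) (⟨h3, h4⟩ | ⟨h3, h4⟩)
    · exact g.uniq h2 h4
    · exact absurd ⟨p, le_rfl, h1⟩ h3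
    · exact absurd ⟨p, le_rfl, h3⟩ h1
    · exact h2.trans h4.symm
  dense := by
    intro p
    by_cases h : ∃ r, r ≤ p ∧ r ≤ q
    · obtain ⟨r, hr, hr'⟩ := h
      obtain ⟨s, hs, z, hz⟩ := (hg u).mono hr' |>.exists
      exact ⟨s, hs.trans hr, z, Or.inl ⟨hs.trans hr', hz⟩⟩
    · exact ⟨p, le_rfl, z0, Or.inr ⟨h, rfl⟩⟩

theorem ofFN_r {U Z : Type} {g : FN P U Z} {q : P} {hg : g.Tot q} {z0 : Z} {u : U} {p : P} {z : Z}
    (hp : p ≤ q) : (ofFN g q hg z0 u).r p z ↔ g.r p u z := by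
  constructor
  · rintro (⟨_, h⟩ | ⟨h, _⟩)
    · exact h
    · exact absurd ⟨p, le_rfl, hp⟩ h
  · exact fun h => Or.inl ⟨hp, h⟩

/-- the random function given by names -/
def toFN {D Z : Type} (g : D → Nm P Z) : FN P D Z where
  r := fun p d v => Loc p fun q => (g d).r q v
  uniq := by
    intro p d v v' h h'
    obtain ⟨q, hq, h1⟩ := h.exists
    obtain ⟨r, hr, h2⟩ := h' q hq
    exact (g d).uniq ((g d).mono hr h1) h2
  mono := fun hq h => h.mono hq
  reg := fun h => h.bind fun q _ h => h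

theorem toFN_of {D Z : Type} {g : D → Nm P Z} {p : P} {d : D} {v : Z} (h : (g d).r p v) :
    (toFN g).r p d v := Loc.pure fun r hr => (g d).mono hr h

theorem toFN_tot {D Z : Type} (g : D → Nm P Z) (p : P) : (toFN g).Tot p := by
  intro d
  refine ((g d).loc p).imp ?_
  rintro q hq ⟨v, hv⟩
  exact ⟨v, toFN_of hv⟩

theorem ofSys_dec {n : ℕ} {θ μ ν : Cardinal.{0}} (S : Pool.Agent.MS.Sys P (En c (f n) n))
    (hS : S.Closed θ) (hD : S.Dec μ ν) : (ofSys (l := l) S hS).Dec μ ν := by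
  classical
  intro p h hok U Z hU hZ H
  by_cases hZne : Nonempty Z
  · obtain ⟨z0⟩ := hZne
    let G : FN P (U × En c (f n) n) Z := toFN fun x => H x.1 (emb x.2)
    obtain ⟨q, hq, k, hk, hle, g, hgt, hg⟩ := hD U Z hU hZ G p h hok (by
      intro q _ t _ u
      exact toFN_tot _ q (u, t))
    refine ⟨q, hq, k, hk, hle, fun u => ofFN g q hgt z0 u, ?_⟩
    intro r hr t ht
    refine Loc.pure fun r' hr' u => ?_
    intro r1 hr1
    obtain ⟨r2, hr2, z, hz⟩ := (hgt.mono ((hr1.trans hr').trans hr)) u r1 le_rfl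
    have h1 := hg r2 (hr2.trans ((hr1.trans hr').trans hr)) t
      (S.S_mono (hr2.trans (hr1.trans hr')) ht) u z hz
    obtain ⟨r3, hr3, h3⟩ := Loc.exists h1
    refine ⟨r3, hr3.trans hr2, z, h3, ?_⟩
    exact (ofFN_r (hr3.trans (hr2.trans ((hr1.trans hr').trans hr)))).2 (g.mono hr3 hz)
  · by_cases hUne : Nonempty U
    · obtain ⟨u⟩ := hUne
      obtain ⟨q, _, t, _⟩ := S.ne hok
      obtain ⟨_, _, z, _⟩ := (H u (emb t)).dense q
      exact absurd ⟨z⟩ hZne
    · exact ⟨p, le_rfl, h, hok, S.le_refl _ _, fun u => absurd ⟨u⟩ hUne,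
        fun q _ t _ => Loc.pure fun r _ u => absurd ⟨u⟩ hUne⟩

theorem exists_max_lv (hc : Cards c l) {n : ℕ} (B : Finset (Lv c n)) :
    ∃ i0 : Lv c n, ∀ i ∈ B, i ≤ i0 := by
  have := inst_inf hc n
  by_cases h : B.Nonempty
  · exact ⟨B.max' h, fun i hi => B.le_max' i hi⟩
  · rw [Finset.not_nonempty_iff_eq_empty] at h
    exact ⟨Classical.arbitrary _, by simp [h]⟩

theorem ofSys_lbig (hc : Cards c l) {n : ℕ} (hn : l < n) (hB : Bdd P c n) {θ : Cardinal.{0}}
    (S : Pool.Agent.MS.Sys P (En c (f n) n)) (hS : S.Closed θ) (hC : S.Close) :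
    (ofSys (l := l) S hS).LBig := by
  intro p h hok H B hH
  obtain ⟨H', hH'⟩ := exists_close hc hn hB H B hH
  obtain ⟨q, hq, k, hk, hle, hcl⟩ := hC (toFN H') p (toFN_tot H' p) h hok
  refine ⟨q, hq, k, hk, hle, ?_⟩
  intro r hr t ht
  refine Loc.pure fun r' hr' => ?_
  intro r1 hr1 v hv hvn
  obtain ⟨i0, hi0⟩ := exists_max_lv hc B
  obtain ⟨i1, hi1⟩ := exists_gt_lv hc i0
  obtain ⟨r2, hr2, w, hw, hvw⟩ := (hH' (emb t) i0 hi0 r1 v hv hvn).exists
  refine ⟨i1, lt_of_le_of_lt hvw ?_⟩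
  exact hcl r2 (hr2.trans (hr1.trans (hr'.trans hr))) t (S.S_mono (hr2.trans (hr1.trans hr')) ht)
    i0 i1 hi1 w (toFN_of hw)

/-- The trivial system: the sets of sequences closed under given functions. -/
def clubSys (hc : Cards c l) {n : ℕ} (hn : l < n) (hf : f n ≤ l) (hP : Cl P #(Lv c l)) :
    BSys P #(Lv c l) (EE c l f n) where
  C := {h : Set (Lv c n → Nm P (Lv c n)) // #h ≤ #(Lv c l)}
  ok _ _ := True
  le _ h' h := h.1 ⊆ h'.1
  All p h φ := ∀ q, q ≤ p → ∀ e : EE c l f n, (∀ H ∈ h.1, ∀ i i', i < i' → ∀ r, r ≤ q → ∀ v,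
    (H (e.1 i)).r r v → v < e.1 i') → Loc q fun r => φ r e
  ok_mono _ _ := trivial
  le_mono _ h := h
  All_mono hq _ h q' hq' := h q' (hq'.trans hq)
  le_refl _ := subset_rfl
  le_trans h h' := h'.trans h
  All_le hle _ h q hq e he := h q hq e fun H hH => he H (hle hH)
  All_imp _ _ h h' q hq e he := (h' q hq e he).bind fun r hr hφ => h r (hr.trans hq) _ hφ
  All_inter _ φ _ h q hq e he := Loc.pure fun r hr i => (h i q hq e he).mono hr
  All_ex := fun {p h φ} _ hφ hall => by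
    classical
    have hinf := inst_inf hc n
    obtain ⟨x0⟩ : Nonempty (Lv c n) := inferInstance
    -- the order of pairs
    let R : Type := P × (Lv c n)ᵒᵈ
    have hR : Cl R #(Lv c l) := by
      intro I _ _ hI s hs
      obtain ⟨q, hq⟩ := hP I hI (fun i => (s i).1) fun i j hij => (hs hij).1
      obtain ⟨b, hb⟩ := exists_bd hc (lt_of_le_theta hc hI hn) fun i => OrderDual.ofDual (s i).2
      exact ⟨(q, OrderDual.toDual b), fun i => ⟨hq i, (hb i).le⟩⟩
    have hstep : ∀ r : R, ∃ r' : R, r' ≤ r ∧ OrderDual.ofDual r.2 < OrderDual.ofDual r'.2 ∧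
        ∀ H ∈ h.1, ∃ v, (H (OrderDual.ofDual r.2)).r r'.1 v ∧ v < OrderDual.ofDual r'.2 := by
      rintro ⟨q, x⟩
      obtain ⟨q', hq', h1⟩ := hP.distr h.2
        (fun H : h.1 => {r : P | ∃ v, (H.1 (OrderDual.ofDual x)).r r v}) q
        (fun H r _ => (H.1 (OrderDual.ofDual x)).dense r)
        (fun H r r' hr ⟨v, hv⟩ => ⟨v, (H.1 (OrderDual.ofDual x)).mono hr hv⟩)
      choose v hv using h1
      obtain ⟨b, hb⟩ := exists_bd hc (lt_of_le_theta hc h.2 hn) v
      obtain ⟨b', hb'⟩ := exists_gt_lv hc (max b (OrderDual.ofDual x))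
      refine ⟨(q', OrderDual.toDual b'), ⟨hq', ?_⟩, ?_, ?_⟩
      · exact (show OrderDual.ofDual x ≤ b' from (le_max_right _ _).trans hb'.le)
      · exact (le_max_right _ _).trans_lt hb'
      · intro H hH
        exact ⟨v ⟨H, hH⟩, hv ⟨H, hH⟩, (hb ⟨H, hH⟩).trans ((le_max_left _ _).trans_lt hb')⟩
    choose F hF1 hF2 hF3 using hstep
    obtain ⟨s, hs0, hs⟩ := exists_seq hR (Lv c (f n)) (lv_le hc hf) (fun _ => F)
      (fun _ r => hF1 r) (p, OrderDual.toDual x0)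
    obtain ⟨q, hq⟩ := hP (Lv c (f n)) (lv_le hc hf) (fun i => (s i).1) (by
      intro i j hij
      rcases eq_or_lt_of_le hij with rfl | h
      · exact le_rfl
      · exact (hs j i h).1.trans (hF1 _).1)
    let e : Lv c (f n) → Lv c n := fun i => OrderDual.ofDual (s i).2
    have he : ∀ i i', i < i' → OrderDual.ofDual (F (s i)).2 ≤ e i' := fun i i' h => (hs i' i h).2
    have hemono : StrictMono e := fun i i' h => (hF2 (s i)).trans_le (he i i' h)
    have hqF : ∀ i, q ≤ (F (s i)).1 := by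
      intro i
      obtain ⟨i', hi'⟩ := exists_gt_lv hc i
      exact (hq i').trans (hs i' i hi').1
    have hinf' := inst_inf hc (f n)
    obtain ⟨i0⟩ : Nonempty (Lv c (f n)) := inferInstance
    have hqp : q ≤ p := (hq i0).trans (hs0 i0).1
    obtain ⟨r, hr, hφr⟩ := (hall q hqp ⟨e, fun _ => hemono⟩ (by
      intro H hH i i' hi r hr v hv
      obtain ⟨w, hw1, hw2⟩ := hF3 (s i) H hH
      have : v = w := (H (e i)).uniq hv ((H (e i)).mono (hr.trans (hqF i)) hw1)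
      rw [this]
      exact hw2.trans_le (he i i' hi))).exists
    exact ⟨r, hr.trans hqp, _, hφr⟩
  cl := fun {p} I _ _ hI s _ hle => by
    refine ⟨p, le_rfl, ⟨⋃ i, (s i).1, ?_⟩, trivial, fun i => subset_iUnion (fun i => (s i).1) i⟩
    refine (Cardinal.mk_iUnion_le _).trans ?_
    calc #I * ⨆ i, #((s i).1) ≤ #(Lv c l) * #(Lv c l) :=
          mul_le_mul' hI (ciSup_le' fun i => (s i).2)
      _ = #(Lv c l) := Cardinal.mul_eq_self (aleph0_le_lv hc l)

theorem clubSys_lbig (hc : Cards c l) {n : ℕ} (hn : l < n) (hf : f n ≤ l) (hP : Cl P #(Lv c l))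
    (hB : Bdd P c n) : (clubSys hc hn hf hP).LBig := by
  intro p h _ H B hH
  obtain ⟨H', hH'⟩ := exists_close hc hn hB H B hH
  have hcard : #(insert H' h.1 : Set (Lv c n → Nm P (Lv c n))) ≤ #(Lv c l) := by
    refine (Cardinal.mk_insert_le).trans ?_
    calc #h.1 + 1 ≤ #(Lv c l) + #(Lv c l) :=
          add_le_add h.2 (Cardinal.one_le_aleph0.trans (aleph0_le_lv hc l))
      _ = #(Lv c l) := Cardinal.add_eq_self (aleph0_le_lv hc l)
  refine ⟨p, le_rfl, ⟨insert H' h.1, hcard⟩, trivial, subset_insert _ _, ?_⟩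
  intro q hq e he
  refine Loc.pure fun r hr => ?_
  intro r1 hr1 v hv hvn
  obtain ⟨i0, hi0⟩ := exists_max_lv hc B
  obtain ⟨i1, hi1⟩ := exists_gt_lv hc i0
  obtain ⟨r2, hr2, w, hw, hvw⟩ := (hH' e i0 hi0 r1 v hv hvn).exists
  exact ⟨i1, lt_of_le_of_lt hvw (he H' (mem_insert _ _) i0 i1 hi1 r2
    (hr2.trans (hr1.trans hr)) w hw)⟩

end Pool.Agent.Lib_helper73.MP
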