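import Pool.Agent.Lib_helper27.MS.Defs
import Mathlib

/-!
# Names for elements of ground sets
-/

namespace Pool.Agent.Lib_helper73.MP

open Set Cardinal Pool.Agent.Lib_helper27 Pool.Agent.MS

set_option linter.unusedSectionVars false
set_option linter.unusedVariables false

section

variable {P : Type} [Preorder P]

/-- `x : Nm P Z` is a `P`-name for an element of the ground set `Z`; `x.r p z` means that `p` decides
that `x = z` (the conditions which decide `x` are dense). -/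
structure Nm (P : Type) [Preorder P] (Z : Type) where
  r : P → Z → Prop
  mono : ∀ {p q : P} {z : Z}, q ≤ p → r p z → r q z
  uniq : ∀ {p : P} {z z' : Z}, r p z → r p z' → z = z'
  dense : ∀ p : P, ∃ q, q ≤ p ∧ ∃ z, r q z

namespace Nm

variable {Z W : Type}

@[ext]
theorem ext' {x y : Nm P Z} (h : ∀ p z, x.r p z ↔ y.r p z) : x = y := by
  cases x
  cases y
  simp only [Nm.mk.injEq]
  funext p z
  exact propext (h p z)

theorem loc (x : Nm P Z) (p : P) : Loc p fun q => ∃ z, x.r q z := fun q _ => x.dense q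

/-- The check name. -/
def chk (z : Z) : Nm P Z where
  r _ z' := z' = z
  mono _ h := h
  uniq h h' := h.trans h'.symm
  dense p := ⟨p, le_rfl, z, rfl⟩

/-- `k(x)` for a family of names `k`. -/
def bnd (x : Nm P Z) (k : Z → Nm P W) : Nm P W where
  r p w := ∃ z, x.r p z ∧ (k z).r p w
  mono h := fun ⟨z, h1, h2⟩ => ⟨z, x.mono h h1, (k z).mono h h2⟩
  uniq := by
    rintro p w w' ⟨z, h1, h2⟩ ⟨z', h1', h2'⟩
    obtain rfl := x.uniq h1 h1'
    exact (k z).uniq h2 h2'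
  dense p := by
    obtain ⟨q, hq, z, hz⟩ := x.dense p
    obtain ⟨r, hr, w, hw⟩ := (k z).dense q
    exact ⟨r, hr.trans hq, w, z, x.mono hr hz, hw⟩

/-- `k(x)` for a ground function `k`. -/
def map (k : Z → W) (x : Nm P Z) : Nm P W where
  r p w := ∃ z, x.r p z ∧ k z = w
  mono h := fun ⟨z, h1, h2⟩ => ⟨z, x.mono h h1, h2⟩
  uniq := by
    rintro p w w' ⟨z, h1, h2⟩ ⟨z', h1', h2'⟩
    obtain rfl := x.uniq h1 h1'
    exact h2.symm.trans h2'
  dense p := by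
    obtain ⟨q, hq, z, hz⟩ := x.dense p
    exact ⟨q, hq, k z, z, hz, rfl⟩

/-- `p` forces `x = y`. -/
def Eqv (p : P) (x y : Nm P Z) : Prop := Loc p fun q => ∃ z, x.r q z ∧ y.r q z

theorem Eqv.mono {p q : P} {x y : Nm P Z} (h : Eqv p x y) (hq : q ≤ p) : Eqv q x y :=
  Loc.mono h hq

theorem Eqv.refl (p : P) (x : Nm P Z) : Eqv p x x := (x.loc p).imp fun _ _ ⟨z, h⟩ => ⟨z, h, h⟩

theorem Eqv.symm {p : P} {x y : Nm P Z} (h : Eqv p x y) : Eqv p y x :=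
  Loc.imp h fun _ _ ⟨z, h1, h2⟩ => ⟨z, h2, h1⟩

theorem Eqv.trans {p : P} {x y z : Nm P Z} (h : Eqv p x y) (h' : Eqv p y z) : Eqv p x z := by
  refine Loc.bind h fun q hq ⟨v, h1, h2⟩ => ?_
  refine Loc.imp (h'.mono hq) fun r hr ⟨w, h3, h4⟩ => ?_
  obtain rfl := y.uniq (y.mono hr h2) h3
  exact ⟨v, x.mono hr h1, h4⟩

theorem Eqv.val {p : P} {x y : Nm P Z} (h : Eqv p x y) {z z' : Z} (h1 : x.r p z) (h2 : y.r p z') :
    z = z' := by
  obtain ⟨q, hq, v, h3, h4⟩ := h.exists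
  exact (x.uniq (x.mono hq h1) h3).trans (y.uniq h4 (y.mono hq h2))

end Nm

/-- Mixing: a name which is in `D` wherever this is possible. -/
theorem exists_mixN {Z : Type} [Nonempty Z] (D : P → Z → Prop)
    (hD : ∀ {p q z}, q ≤ p → D p z → D q z) :
    ∃ x : Nm P Z, ∀ p, Loc p (fun q => ∃ z, D q z) → Loc p (fun q => ∃ z, x.r q z ∧ D q z) := by
  classical
  let S : Set P := {q | (∃ z, D q z) ∨ ∀ r, r ≤ q → ¬ ∃ z, D r z}
  have hS : ∀ p, ∃ q, q ≤ p ∧ q ∈ S := by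
    intro p
    by_cases h : ∃ r, r ≤ p ∧ ∃ z, D r z
    · obtain ⟨r, hr, hz⟩ := h
      exact ⟨r, hr, Or.inl hz⟩
    · exact ⟨p, le_rfl, Or.inr fun r hr hz => h ⟨r, hr, hz⟩⟩
  obtain ⟨A, hA⟩ := zorn_subset {A : Set P | A ⊆ S ∧ ∀ a ∈ A, ∀ b ∈ A, (∃ r, r ≤ a ∧ r ≤ b) → a = b} (by
    intro c hc hch
    refine ⟨⋃₀ c, ⟨fun a ⟨s, hs, ha⟩ => (hc hs).1 ha, ?_⟩, fun s hs => subset_sUnion_of_mem hs⟩
    rintro a ⟨s, hs, ha⟩ b ⟨t, ht, hb⟩ hab
    rcases hch.total hs ht with h | h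
    · exact (hc ht).2 a (h ha) b hb hab
    · exact (hc hs).2 a ha b (h hb) hab)
  obtain ⟨hAS, hAa⟩ := hA.prop
  have hcomp : ∀ p, ∃ q, q ≤ p ∧ ∃ a ∈ A, q ≤ a := by
    intro p
    obtain ⟨s, hs, hsS⟩ := hS p
    by_contra hcon
    have hno : ∀ a ∈ A, ¬ ∃ r, r ≤ s ∧ r ≤ a := by
      rintro a ha ⟨r, hr1, hr2⟩
      exact hcon ⟨r, hr1.trans hs, a, ha, hr2⟩
    have hmax := hA.le_of_ge (y := insert s A) ⟨insert_subset hsS hAS, by
      rintro a (rfl | ha) b (rfl | hb) ⟨r, h1, h2⟩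
      · rfl
      · exact absurd ⟨r, h1, h2⟩ (hno b hb)
      · exact absurd ⟨r, h2, h1⟩ (hno a ha)
      · exact hAa a ha b hb ⟨r, h1, h2⟩⟩ (subset_insert _ _)
    exact hno s (hmax (mem_insert _ _)) ⟨s, le_rfl, le_rfl⟩
  let zz : P → Z := fun a => if h : ∃ z, D a z then h.choose else Classical.arbitrary Z
  refine ⟨⟨fun q z => ∃ a ∈ A, q ≤ a ∧ z = zz a, ?_, ?_, ?_⟩, ?_⟩
  · rintro p q z h ⟨a, ha, hpa, hz⟩
    exact ⟨a, ha, h.trans hpa, hz⟩
  · rintro p z z' ⟨a, ha, hpa, rfl⟩ ⟨b, hb, hpb, rfl⟩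
    rw [hAa a ha b hb ⟨p, hpa, hpb⟩]
  · intro p
    obtain ⟨q, hq, a, ha, hqa⟩ := hcomp p
    exact ⟨q, hq, zz a, a, ha, hqa, rfl⟩
  · intro p hp q hq
    obtain ⟨r, hr, z, hz⟩ := hp q hq
    obtain ⟨s, hs, a, ha, hsa⟩ := hcomp r
    refine ⟨s, hs.trans hr, zz a, ⟨a, ha, hsa, rfl⟩, ?_⟩
    rcases hAS ha with h | h
    · have : zz a = h.choose := dif_pos h
      rw [this]
      exact hD hsa h.choose_spec
    · exact absurd ⟨z, hD hs hz⟩ (h s hsa)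

end

end Pool.Agent.Lib_helper73.MP
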