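import Pool.Agent.Lib_helper73.MP.Nm

/-!
# Closed partial orders
-/

namespace Pool.Agent.Lib_helper73.MP

open Set Cardinal Pool.Agent.Lib_helper27 Pool.Agent.MS

section

variable {R : Type} [Preorder R] {θ : Cardinal.{0}}

theorem exists_seq (hR : Cl R θ) (I : Type) [LinearOrder I] [WellFoundedLT I] (hI : #I ≤ θ)
    (F : I → R → R) (hF : ∀ i r, F i r ≤ r) (r0 : R) :
    ∃ s : I → R, (∀ i, s i ≤ r0) ∧ (∀ i, ∀ j < i, s i ≤ F j (s j)) := by
  classical
  let step : (i : I) → ((j : I) → j < i → R) → R := fun i s =>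
    if h : ∃ b, b ≤ r0 ∧ ∀ j (hj : j < i), b ≤ F j (s j hj) then h.choose else r0
  let s : I → R := WellFounded.fix (wellFounded_lt (α := I)) step
  have hs : ∀ i, s i = step i (fun j _ => s j) := fun i =>
    WellFounded.fix_eq (wellFounded_lt (α := I)) step i
  have key : ∀ i, (s i ≤ r0 ∧ ∀ j < i, s i ≤ F j (s j)) := by
    intro i
    induction i using WellFoundedLT.induction with
    | ind i ih =>
      have ex : ∃ b, b ≤ r0 ∧ ∀ j (_ : j < i), b ≤ F j (s j) := by
        by_cases h0 : ∃ j, j < i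
        · obtain ⟨j0, hj0⟩ := h0
          have hanti : Antitone (fun j : {j : I // j < i} => F j.1 (s j.1)) := by
            intro j j' hjj
            rcases eq_or_lt_of_le hjj with h | h
            · rw [h]
            · exact (hF _ _).trans ((ih j'.1 j'.2).2 j.1 h)
          obtain ⟨b, hb⟩ := hR {j : I // j < i} ((mk_subtype_le _).trans hI) _ hanti
          refine ⟨b, (hb ⟨j0, hj0⟩).trans ((hF _ _).trans (ih j0 hj0).1),
            fun j hj => hb ⟨j, hj⟩⟩
        · exact ⟨r0, le_rfl, fun j hj => absurd ⟨j, hj⟩ h0⟩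
      have hsi : s i = ex.choose := by
        rw [hs i]
        exact dif_pos ex
      rw [hsi]
      exact ex.choose_spec
  exact ⟨s, fun i => (key i).1, fun i j hj => (key i).2 j hj⟩

/-- simultaneous decision of properties which hold on dense sets -/
theorem loc_forall (hR : Cl R θ) {I : Type} (hI : #I ≤ θ) (D : I → R → Prop)
    (r0 : R) (hD : ∀ i, Loc r0 (D i)) (hDo : ∀ i r r', r' ≤ r → D i r → D i r') :
    Loc r0 (fun r => ∀ i, D i r) := by
  intro q hq
  obtain ⟨r, hr, h⟩ := hR.distr hI (fun i => {r | D i r}) q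
    (fun i r hr => hD i r (hr.trans hq)) (fun i r r' hr h => hDo i r r' hr h)
  exact ⟨r, hr, h⟩

end

end Pool.Agent.Lib_helper73.MP
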