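import Pool.Agent.Lib_helper73.MP.Lvl

/-!
# The recursion
-/

namespace Pool.Agent.Lib_helper73.MP

open Set Cardinal Pool.Agent.Lib_helper27 Pool.Agent.MS

set_option linter.unusedSectionVars false
set_option linter.unusedVariables false

/-- the next element of `X` above `x` -/
noncomputable def nx (X : Set ℕ) (x : ℕ) : ℕ := sInf {y | y ∈ X ∧ x < y}

theorem nx_spec {X : Set ℕ} (hX : X.Infinite) (x : ℕ) : nx X x ∈ X ∧ x < nx X x :=
  Nat.sInf_mem (s := {y | y ∈ X ∧ x < y}) (by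
    obtain ⟨y, hy, hxy⟩ := hX.exists_gt x
    exact ⟨y, hy, hxy⟩)

theorem nx_le {X : Set ℕ} {x y : ℕ} (hy : y ∈ X) (hxy : x < y) : nx X x ≤ y :=
  Nat.sInf_le ⟨hy, hxy⟩

variable {P : Type} [Preorder P] {Ω : Type} [LinearOrder Ω] [WellFoundedLT Ω] {c : ℕ → Ω} {l : ℕ}
  {f : ℕ → ℕ} {θ : Cardinal.{0}}

/-- the coordinates used -/
def YY (l : ℕ) (X : Set ℕ) : Set ℕ := {n | l < n ∧ n ∉ X}

/-- the coordinates between `x` and the next element of `X` from `y`, the others from `e` -/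
noncomputable def asg (X : Set ℕ) (x : ℕ) (y e : Pt c l f) : Pt c l f := fun n =>
  open Classical in if x < n ∧ n < nx X x then y n else e n

/-- conditions: a condition of `P` and codes for all blocks -/
structure Cd (B : ℕ → BSys P θ (Pt c l f)) where
  p : P
  x : ∀ n, (B n).C
  ok : ∀ n, (B n).ok p (x n)

variable {B : ℕ → BSys P θ (Pt c l f)}

instance : Preorder (Cd B) where
  le r' r := r'.p ≤ r.p ∧ ∀ n, (B n).le r'.p (r'.x n) (r.x n)
  le_refl r := ⟨le_rfl, fun n => (B n).le_refl (r.ok n)⟩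
  le_trans a b c h1 h2 := ⟨h1.1.trans h2.1, fun n =>
    (B n).le_trans (h1.2 n) ((B n).le_mono h1.1 (h2.2 n))⟩

theorem Cd.le_iff {r r' : Cd B} : r' ≤ r ↔ r'.p ≤ r.p ∧ ∀ n, (B n).le r'.p (r'.x n) (r.x n) := Iff.rfl

theorem exists_cd (hP : Cl P θ) (hθ : ℵ₀ ≤ θ) (B : ℕ → BSys P θ (Pt c l f)) (p : P) :
    ∃ r : Cd B, r.p ≤ p := by
  have h := loc_forall hP (mk_nat_le' hθ) (fun n q => ∃ x, (B n).ok q x) p (by
    intro n q hq
    obtain ⟨r, hr, x, hx, _⟩ := (B n).cl (p := q) Empty (by simp) (fun i => i.elim)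
      (fun i => i.elim) (fun i => i.elim)
    exact ⟨r, hr, x, hx⟩) (fun n r r' hr ⟨x, hx⟩ => ⟨x, (B n).ok_mono hr hx⟩)
  obtain ⟨q, hq, hx⟩ := h.exists
  choose x hx using hx
  exact ⟨⟨q, x, hx⟩, hq⟩

theorem Cd.cl (hP : Cl P θ) (hθ : ℵ₀ ≤ θ) : Cl (Cd B) θ := by
  intro I _ _ hI s hs
  by_cases hne : Nonempty I
  · obtain ⟨p0, hp0⟩ := hP I hI (fun i => (s i).p) fun i j hij => (hs hij).1
    have h := loc_forall hP (mk_nat_le' hθ)
      (fun n q => ∃ x, (B n).ok q x ∧ ∀ i, (B n).le q x ((s i).x n)) p0 (by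
      intro n q hq
      obtain ⟨r, hr, x, hx, hx'⟩ := (B n).cl (p := q) I hI (fun i => (s i).x n)
        (fun i => (B n).ok_mono (hq.trans (hp0 i)) ((s i).ok n))
        (fun i j hij => (B n).le_mono (hq.trans (hp0 j)) ((hs hij).2 n))
      exact ⟨r, hr, x, hx, hx'⟩) (fun n r r' hr ⟨x, hx, hx'⟩ =>
        ⟨x, (B n).ok_mono hr hx, fun i => (B n).le_mono hr (hx' i)⟩)
    obtain ⟨q, hq, hx⟩ := h.exists
    choose x hx hx' using hx
    exact ⟨⟨q, x, hx⟩, fun i => ⟨hq.trans (hp0 i), fun n => hx' n i⟩⟩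
  · obtain ⟨p, _⟩ := hP Empty (by simp) (fun i => i.elim) (fun i => i.elim)
    obtain ⟨r, _⟩ := exists_cd hP hθ B p
    exact ⟨r, fun i => absurd ⟨i⟩ hne⟩

theorem Cd.upd (r : Cd B) (n : ℕ) {q : P} (hq : q ≤ r.p) {x' : (B n).C} (hok : (B n).ok q x')
    (hle : (B n).le q x' (r.x n)) : ∃ r' : Cd B, r' ≤ r ∧ r'.p = q ∧ r'.x n = x' := by
  refine ⟨⟨q, Function.update r.x n x', fun k => ?_⟩, ⟨hq, fun k => ?_⟩, rfl, by simp⟩
  · by_cases h : k = n
    · subst h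
      simpa using hok
    · rw [Function.update_of_ne h]
      exact (B k).ok_mono hq (r.ok k)
  · by_cases h : k = n
    · subst h
      simpa using hle
    · simp only [Function.update_of_ne h]
      exact (B k).le_mono hq ((B k).le_refl (r.ok k))

/-- the hypothesis of the decisions -/
def DRel (X : Set ℕ) (n m : ℕ) (H : Pt c l f → Nm P Ω) (A : Finset (Leaf c f)) : Prop :=
  n ∈ X ∧ m ≤ n ∧ (∀ e p v, (H e).r p v → v < c m) ∧ FinL A H ∧ ∀ a ∈ A, a.1 ∈ YY l X ∧ a.1 < nx X n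

/-- the decision for the function `H` at the block above `n` -/
def DOk (X : Set ℕ) (n m : ℕ) (H : Pt c l f → Nm P Ω) (g : Pt c l f → Nm P Ω) (r : Cd B) : Prop :=
  (∃ A' : Finset (Leaf c f), FinL A' g ∧ ∀ a ∈ A', a.1 ∈ YY l X ∧ a.1 < n) ∧
    (∀ e p v, (g e).r p v → v < c m) ∧
    (B n).All r.p (r.x n) fun q y => ∀ e, Nm.Eqv q (H (asg X n y e)) (g e)

theorem mn_dok (X : Set ℕ) (n : ℕ) (H g : Pt c l f → Nm P Ω) :
    Mn fun q (y : Pt c l f) => ∀ e, Nm.Eqv q (H (asg X n y e)) (g e) :=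
  fun p q hq y h e => (h e).mono hq

theorem DOk.mono {X : Set ℕ} {n m : ℕ} {H g : Pt c l f → Nm P Ω} {r r' : Cd B}
    (h : DOk X n m H g r) (hr : r' ≤ r) : DOk X n m H g r' :=
  ⟨h.1, h.2.1, (B n).All_le (hr.2 n) (mn_dok _ _ _ _) ((B n).All_mono hr.1 (mn_dok _ _ _ _) h.2.2)⟩

theorem exists_dok (hc : Cards c l) {X : Set ℕ} (hXl : ∀ x ∈ X, l < x)
    (hD : ∀ n ∈ X, (B n).Dec #(Lv c (n - 1)) #(Lv c n)) {n m : ℕ} {H : Pt c l f → Nm P Ω}
    {A : Finset (Leaf c f)} (hrel : DRel X n m H A) (r : Cd B) :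
    ∃ r' : Cd B, r' ≤ r ∧ ∃ g, DOk X n m H g r' := by
  classical
  obtain ⟨hn, hm, hv, hA, hAX⟩ := hrel
  have hnl := hXl n hn
  have hinf := inst_inf hc m
  obtain ⟨x0⟩ : Nonempty (Lv c m) := inferInstance
  obtain ⟨_, _, pt, _⟩ := (B n).All_ex (r.ok n) (φ := fun _ _ => True) (fun _ _ _ _ h => h)
    ((B n).All_univ (fun _ _ _ _ h => h) fun q _ e => Loc.pure fun _ _ => trivial)
  let U : Type := ∀ a : {a // a ∈ A ∧ a.1 < n}, Lv c a.1.1
  have hUfin : Finite {a // a ∈ A ∧ a.1 < n} := Finite.of_injective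
    (fun a => (⟨a.1, a.2.1⟩ : {a // a ∈ A})) (fun a b h => Subtype.ext (by simpa using h))
  have hU : #U ≤ #(Lv c (n - 1)) := mk_pi_le _ (aleph0_le_lv hc _) fun a => lv_le hc (by
    have := a.2.2
    omega)
  let pp : U → Pt c l f := fun u =>
    if h : ∃ e : Pt c l f, ∀ a, (e a.1.1).1 a.1.2 = u a then h.choose else pt
  let ut : Pt c l f → U := fun e a => (e a.1.1).1 a.1.2
  have hpp : ∀ e : Pt c l f, ∀ a ∈ A, a.1 < n → (pp (ut e) a.1).1 a.2 = (e a.1).1 a.2 := by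
    intro e a ha hn
    have hex : ∃ e' : Pt c l f, ∀ a, (e' a.1.1).1 a.1.2 = ut e a := ⟨e, fun _ => rfl⟩
    have : pp (ut e) = hex.choose := dif_pos hex
    rw [this]
    exact hex.choose_spec ⟨a, ha, hn⟩
  obtain ⟨q, hq, x', hok, hle, g, hg⟩ := hD n hn r.p (r.x n) (r.ok n) U (Lv c m) hU (lv_le hc hm)
    (fun u y => (H (asg X n y (pp u))).map (toLv m x0))
  obtain ⟨r', hr', hp, hx⟩ := r.upd n hq hok hle
  subst hx
  subst hp
  refine ⟨r', hr', fun e => (g (ut e)).map Subtype.val, ⟨A.filter (fun a => a.1 < n), ?_, ?_⟩, ?_, ?_⟩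
  · intro e e' h
    have : ut e = ut e' := funext fun a => h a.1 (Finset.mem_filter.2 a.2)
    simp only [this]
  · intro a ha
    rw [Finset.mem_filter] at ha
    exact ⟨(hAX a ha.1).1, ha.2⟩
  · rintro e p v ⟨x, _, rfl⟩
    exact x.2
  · refine (B n).All_imp ?_ (mn_dok _ _ _ _) ?_ hg
    · intro p q hq y h u
      exact (h u).mono hq
    · intro q _ y h
      refine Loc.pure fun q' hq' e => ?_
      have h1 : H (asg X n y (pp (ut e))) = H (asg X n y e) := by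
        refine hA _ _ fun a ha => ?_
        unfold asg
        split_ifs with h2
        · rfl
        · refine hpp e a ha ?_
          have h3 := hAX a ha
          have h4 : a.1 ≠ n := by
            intro h5
            exact h3.1.2 (h5 ▸ hn)
          by_contra h6
          exact h2 ⟨by omega, h3.2⟩
      refine Loc.imp ((h (ut e)).mono hq') ?_
      rintro q2 _ ⟨z, ⟨v, h2, h3⟩, h4⟩
      rw [h1] at h2
      refine ⟨v, h2, z, h4, ?_⟩
      rw [← h3]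
      exact toLv_of (hv _ _ _ h2)

/-- the hypothesis of the closure -/
def BRel (X : Set ℕ) (n m : ℕ) (H : Pt c l f → Nm P Ω) (A : Finset (Leaf c f)) : Prop :=
  (n ∈ X ∨ n = l) ∧ n < m ∧ m < nx X n ∧ FinL A H ∧ ∀ a ∈ A, m ≤ a.1 ∧ a.1 < nx X n

/-- the closure of the coordinate `m` of the block above `n` -/
def BOk (n m : ℕ) (H : Pt c l f → Nm P Ω) (r : Cd B) : Prop :=
  (B n).All r.p (r.x n) fun q y => Bnd m q (H y) (y m)

theorem BOk.mono {n m : ℕ} {H : Pt c l f → Nm P Ω} {r r' : Cd B}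
    (h : BOk n m H r) (hr : r' ≤ r) : BOk n m H r' :=
  (B n).All_le (hr.2 n) (mn_BndB _) ((B n).All_mono hr.1 (mn_BndB _) h)

theorem exists_bok {X : Set ℕ}
    (hBig : ∀ n, n ∈ X ∨ n = l → ∀ m, n < m → m < nx X n → (B n).Big m (nx X n))
    {n m : ℕ} {H : Pt c l f → Nm P Ω} {A : Finset (Leaf c f)} (hrel : BRel X n m H A) (r : Cd B) :
    ∃ r' : Cd B, r' ≤ r ∧ BOk n m H r' := by
  obtain ⟨h1, h2, h3, h4, h5⟩ := hrel
  obtain ⟨q, hq, x', hok, hle, hall⟩ := hBig n h1 m h2 h3 r.p (r.x n) (r.ok n) H A h5 h4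
  obtain ⟨r', hr', hp, hx⟩ := r.upd n hq hok hle
  subst hx
  subst hp
  exact ⟨r', hr', hall⟩

/-- the value of a constant name is decided -/
def VOk (H : Pt c l f → Nm P Ω) (r : Cd B) : Prop := ∀ e, ∃ v, (H e).r r.p v

theorem VOk.mono {H : Pt c l f → Nm P Ω} {r r' : Cd B} (h : VOk H r) (hr : r' ≤ r) : VOk H r' :=
  fun e => by
    obtain ⟨v, hv⟩ := h e
    exact ⟨v, (H e).mono hr.1 hv⟩

theorem Cd.restrict (r : Cd B) {q : P} (hq : q ≤ r.p) : ∃ r' : Cd B, r' ≤ r ∧ r'.p = q :=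
  ⟨⟨q, r.x, fun n => (B n).ok_mono hq (r.ok n)⟩,
    ⟨hq, fun n => (B n).le_mono hq ((B n).le_refl (r.ok n))⟩, rfl⟩

theorem exists_vok {H : Pt c l f → Nm P Ω} (hH : FinL ∅ H) (r : Cd B) :
    ∃ r' : Cd B, r' ≤ r ∧ VOk H r' := by
  by_cases h : Nonempty (Pt c l f)
  · obtain ⟨e⟩ := h
    obtain ⟨q, hq, v, hv⟩ := (H e).dense r.p
    obtain ⟨r', hr', rfl⟩ := r.restrict hq
    refine ⟨r', hr', fun e' => ⟨v, ?_⟩⟩
    rwa [hH e' e (by simp)]
  · exact ⟨r, le_rfl, fun e => absurd ⟨e⟩ h⟩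

/-- The states of the recursion. -/
structure St (B : ℕ → BSys P θ (Pt c l f)) (X : Set ℕ) where
  N : Set (Pt c l f → Nm P Ω)
  card : #N ≤ θ
  fs : ∀ H ∈ N, ∃ A : Finset (Leaf c f), FinL A H ∧ ∀ a ∈ A, a.1 ∈ YY l X
  r : Cd B

variable {X : Set ℕ}

instance : Preorder (St B X) where
  le s' s := s.N ⊆ s'.N ∧ s'.r ≤ s.r
  le_refl s := ⟨subset_rfl, le_rfl⟩
  le_trans a b c h1 h2 := ⟨h2.1.trans h1.1, h1.2.trans h2.2⟩

theorem St.cl (hP : Cl P θ) (hθ : ℵ₀ ≤ θ) : Cl (St B X) θ := by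
  intro I _ _ hI s hs
  obtain ⟨r, hr⟩ := Cd.cl (B := B) hP hθ I hI (fun i => (s i).r) fun i j h => (hs h).2
  refine ⟨⟨⋃ i, (s i).N, ?_, ?_, r⟩, fun i => ⟨subset_iUnion (fun i => (s i).N) i, hr i⟩⟩
  · refine (Cardinal.mk_iUnion_le _).trans ?_
    calc #I * ⨆ i, #((s i).N) ≤ θ * θ := mul_le_mul' hI (ciSup_le' fun i => (s i).card)
      _ = θ := Cardinal.mul_eq_self hθ
  · intro H hH
    obtain ⟨i, hi⟩ := mem_iUnion.1 hH
    exact (s i).fs H hi

/-- evaluation of a list of functions at a point -/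
def evL : List (Pt c l f → Nm P Ω) → Pt c l f → Nm P (List Ω)
  | [], _ => Nm.chk []
  | H :: L, e => (H e).bnd fun v => (evL L e).map fun vs => v :: vs

/-- application of an operation to a list of functions -/
def app (F : List Ω → Nm P Ω) (L : List (Pt c l f → Nm P Ω)) : Pt c l f → Nm P Ω := fun e =>
  (evL L e).bnd F

theorem evL_congr {L : List (Pt c l f → Nm P Ω)} {e e' : Pt c l f} (h : ∀ H ∈ L, H e = H e') :
    evL L e = evL L e' := by
  induction L with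
  | nil => rfl
  | cons a L ih =>
    simp only [evL, h a (by simp)]
    rw [ih fun H hH => h H (by simp [hH])]

theorem FinL.mono {A A' : Finset (Leaf c f)} {H : Pt c l f → Nm P Ω} (h : FinL A H)
    (hA : A ⊆ A') : FinL A' H := fun e e' he => h e e' fun a ha => he a (hA ha)

theorem FinL.app {Y : Set ℕ} (F : List Ω → Nm P Ω) {L : List (Pt c l f → Nm P Ω)}
    (h : ∀ H ∈ L, ∃ A : Finset (Leaf c f), FinL A H ∧ ∀ a ∈ A, a.1 ∈ Y) :
    ∃ A : Finset (Leaf c f), FinL A (app F L) ∧ ∀ a ∈ A, a.1 ∈ Y := by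
  classical
  have : ∃ A : Finset (Leaf c f), (∀ a ∈ A, a.1 ∈ Y) ∧ ∀ H ∈ L, FinL A H := by
    induction L with
    | nil => exact ⟨∅, by simp, by simp⟩
    | cons a L ih =>
      obtain ⟨A1, h1, h1'⟩ := h a (by simp)
      obtain ⟨A2, h2', h2⟩ := ih fun H hH => h H (by simp [hH])
      refine ⟨A1 ∪ A2, ?_, fun H hH => ?_⟩
      · intro b hb
        rcases Finset.mem_union.1 hb with hb | hb
        · exact h1' b hb
        · exact h2' b hb
      · rcases List.mem_cons.1 hH with rfl | hH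
        · exact h1.mono Finset.subset_union_left
        · exact (h2 H hH).mono Finset.subset_union_right
  obtain ⟨A, hA1, hA2⟩ := this
  refine ⟨A, fun e e' he => ?_, hA1⟩
  unfold MP.app
  rw [evL_congr fun H hH => hA2 H hH e e' he]

theorem evL_r {L : List (Pt c l f → Nm P Ω)} {e : Pt c l f} {q : P} {vs : List Ω}
    (h : List.Forall₂ (fun H v => (H e).r q v) L vs) : (evL L e).r q vs := by
  induction h with
  | nil => exact rfl
  | cons h _ ih => exact ⟨_, h, _, ih, rfl⟩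

/-- `H` if the value is below `κ_m` and `x0` otherwise -/
noncomputable def cut (m : ℕ) (x0 : Lv c m) (H : Pt c l f → Nm P Ω) : Pt c l f → Nm P Ω := fun e =>
  (H e).map fun v => (toLv m x0 v).1

theorem cut_lt {m : ℕ} {x0 : Lv c m} {H : Pt c l f → Nm P Ω} {e p v}
    (h : (cut m x0 H e).r p v) : v < c m := by
  obtain ⟨w, _, rfl⟩ := h
  exact (toLv m x0 w).2

theorem cut_of {m : ℕ} {x0 : Lv c m} {H : Pt c l f → Nm P Ω} {e p v}
    (h : (H e).r p v) (hv : v < c m) : (cut m x0 H e).r p v := ⟨v, h, toLv_of hv⟩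

theorem FinL.cut {m : ℕ} {x0 : Lv c m} {A : Finset (Leaf c f)} {H : Pt c l f → Nm P Ω}
    (h : FinL A H) : FinL A (cut m x0 H) := by
  intro e e' he
  simp only [MP.cut, h e e' he]

/-- the constant function -/
def cst (v : Ω) : Pt c l f → Nm P Ω := fun _ => Nm.chk v

theorem FinL.cst (v : Ω) : FinL (P := P) ∅ (cst v : Pt c l f → Nm P Ω) := fun _ _ _ => rfl

/-- a coordinate -/
def crd (a : Leaf c f) : Pt c l f → Nm P Ω := fun e => Nm.chk ((e a.1).1 a.2).1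

theorem FinL.crd (a : Leaf c f) : FinL (P := P) {a} (crd a : Pt c l f → Nm P Ω) := by
  intro e e' he
  simp only [MP.crd, he a (Finset.mem_singleton_self a)]

end Pool.Agent.Lib_helper73.MP
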