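import Pool.Agent.Lib_helper73.MP.St

/-!
# One step of the recursion
-/

namespace Pool.Agent.Lib_helper73.MP

open Set Cardinal Pool.Agent.Lib_helper27 Pool.Agent.MS

set_option linter.unusedSectionVars false
set_option linter.unusedVariables false

variable {P : Type} [Preorder P] {Ω : Type} [LinearOrder Ω] [WellFoundedLT Ω] {c : ℕ → Ω} {l : ℕ}
  {f : ℕ → ℕ} {B : ℕ → BSys P #(Lv c l) (Pt c l f)} {X : Set ℕ}

/-- The conclusion of `exists_supl`. -/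
def SOk (m : ℕ) (A' : Finset (Leaf c f)) (H H' : Pt c l f → Nm P Ω) : Prop :=
  FinL A' H' ∧ (∀ e p v, (H' e).r p v → v < c m) ∧
    ∀ e p v, (H e).r p v → v < c m → Loc p fun q => ∃ w, (H' e).r q w ∧ v ≤ w

/-- One step of the recursion. -/
structure Step {J : Type} (F : J → List Ω → Nm P Ω) (x0 : ∀ n, Lv c n) (s s' : St B X) : Prop where
  le : s' ≤ s
  dcd : ∀ n m, ∀ H ∈ s.N, ∀ A, DRel X n m H A → ∃ g ∈ s'.N, DOk X n m H g s'.r
  big : ∀ n m, ∀ H ∈ s.N, ∀ A, BRel X n m H A → BOk n m H s'.r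
  alg : ∀ j, ∀ L : List (Pt c l f → Nm P Ω), (∀ H ∈ L, H ∈ s.N) → app (F j) L ∈ s'.N
  cut : ∀ m, ∀ H ∈ s.N, cut m (x0 m) H ∈ s'.N
  supl : ∀ m, l < m → ∀ H ∈ s.N, ∀ A : Finset (Leaf c f), FinL A H → (∀ a ∈ A, a.1 ∈ YY l X) →
    ∃ H' ∈ s'.N, SOk m (A.filter fun a => m ≤ a.1) H H'
  bet : ∀ m, l < m → ∃ w : Lv c m, cst w.1 ∈ s'.N ∧ ∀ H ∈ s.N, FinL ∅ H → ∀ e,
    ∃ v, (H e).r s'.r.p v ∧ (v < c m → v < w.1)

theorem exists_step (hc : Cards c l) (hf : ∀ n, f n ≤ l) (hP : Cl P #(Lv c l))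
    (hB : ∀ m, Bdd P c m) (hXl : ∀ x ∈ X, l < x)
    (hD : ∀ n ∈ X, (B n).Dec #(Lv c (n - 1)) #(Lv c n))
    (hBig : ∀ n, n ∈ X ∨ n = l → ∀ m, n < m → m < nx X n → (B n).Big m (nx X n))
    {J : Type} [Countable J] (F : J → List Ω → Nm P Ω) (x0 : ∀ n, Lv c n) (s : St B X) :
    ∃ s', Step F x0 s s' := by
  classical
  have hb : ℵ₀ ≤ #(Lv c l) := aleph0_le_lv hc l
  have hcl : Cl (Cd B) #(Lv c l) := Cd.cl hP hb
  -- the index sets
  let I : Type := (ℕ × ℕ) × (s.N × Finset (Leaf c f))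
  have hnn : #(ℕ × ℕ) ≤ #(Lv c l) := mk_prod_le hb (mk_nat_le' hb) (mk_nat_le' hb)
  have hNA : #(s.N × Finset (Leaf c f)) ≤ #(Lv c l) := mk_prod_le hb s.card (mk_finset_leaf_le hc hf)
  have hI : #I ≤ #(Lv c l) := mk_prod_le hb hnn hNA
  -- the conditions
  obtain ⟨r1, hr1, hd⟩ := hcl.distr hI
    (fun i : I => {r | DRel X i.1.1 i.1.2 i.2.1.1 i.2.2 → ∃ g, DOk X i.1.1 i.1.2 i.2.1.1 g r}) s.r
    (fun i r _ => by
      by_cases h : DRel X i.1.1 i.1.2 i.2.1.1 i.2.2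
      · obtain ⟨r', h1, h2⟩ := exists_dok hc hXl hD h r
        exact ⟨r', h1, fun _ => h2⟩
      · exact ⟨r, le_rfl, fun h' => absurd h' h⟩)
    (fun i r r' hr' hd h => by
      obtain ⟨g, hg⟩ := hd h
      exact ⟨g, hg.mono hr'⟩)
  obtain ⟨r2, hr2, hbig⟩ := hcl.distr hI
    (fun i : I => {r | BRel X i.1.1 i.1.2 i.2.1.1 i.2.2 → BOk i.1.1 i.1.2 i.2.1.1 r}) r1
    (fun i r _ => by
      by_cases h : BRel X i.1.1 i.1.2 i.2.1.1 i.2.2
      · obtain ⟨r', h1, h2⟩ := exists_bok hBig h r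
        exact ⟨r', h1, fun _ => h2⟩
      · exact ⟨r, le_rfl, fun h' => absurd h' h⟩)
    (fun i r r' hr' hd h => (hd h).mono hr')
  obtain ⟨r3, hr3, hval⟩ := hcl.distr s.card
    (fun H : s.N => {r | FinL ∅ H.1 → VOk H.1 r}) r2
    (fun H r _ => by
      by_cases h : FinL ∅ H.1
      · obtain ⟨r', h1, h2⟩ := exists_vok h r
        exact ⟨r', h1, fun _ => h2⟩
      · exact ⟨r, le_rfl, fun h' => absurd h' h⟩)
    (fun i r r' hr' hd h => (hd h).mono hr')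
  -- the decided functions
  let G1 : I → (Pt c l f → Nm P Ω) := fun i =>
    if h : DRel X i.1.1 i.1.2 i.2.1.1 i.2.2 then (hd i h).choose else cst (x0 0).1
  -- the suprema
  have hsup : ∀ i : I, l < i.1.1 → FinL i.2.2 i.2.1.1 → ∃ H', SOk i.1.1
      (i.2.2.filter fun a => i.1.1 ≤ a.1) i.2.1.1 H' := by
    intro i hm hA
    exact exists_supl hc hm (hB _) i.2.1.1 i.2.2 _ (fun a ha ha' => by
      rw [Finset.mem_filter] at ha'
      by_contra hcon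
      exact ha' ⟨ha, by omega⟩) hA
  let G2 : I → (Pt c l f → Nm P Ω) := fun i =>
    if h : l < i.1.1 ∧ FinL i.2.2 i.2.1.1 ∧ ∀ a ∈ i.2.2, a.1 ∈ YY l X then
      (hsup i h.1 h.2.1).choose else cst (x0 0).1
  -- the bounds of the decided values
  have hw : ∀ m, l < m → ∃ w : Lv c m, ∀ H ∈ s.N, FinL ∅ H → ∀ e,
      ∃ v, (H e).r r3.p v ∧ (v < c m → v < w.1) := by
    intro m hm
    by_cases hne : Nonempty (Pt c l f)
    · obtain ⟨e0⟩ := hne
      have h1 : ∀ H : s.N, ∃ v : Ω, FinL ∅ H.1 → (H.1 e0).r r3.p v := by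
        intro H
        by_cases h : FinL ∅ H.1
        · obtain ⟨v, hv⟩ := hval H h e0
          exact ⟨v, fun _ => hv⟩
        · exact ⟨(x0 0).1, fun h' => absurd h' h⟩
      choose v hv using h1
      obtain ⟨w, hw⟩ := exists_bd hc (lt_of_le_theta hc s.card hm) fun H => toLv m (x0 m) (v H)
      refine ⟨w, fun H hH hfin e => ⟨v ⟨H, hH⟩, ?_, fun h2 => ?_⟩⟩
      · have h5 : (H e0).r r3.p (v ⟨H, hH⟩) := hv ⟨H, hH⟩ hfin
        rwa [hfin e0 e (by simp)] at h5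
      · have h3 := hw ⟨H, hH⟩
        have h4 : (toLv m (x0 m) (v ⟨H, hH⟩)).1 < w.1 := h3
        rwa [toLv_of h2] at h4
    · exact ⟨x0 m, fun H _ _ e => absurd ⟨e⟩ hne⟩
  choose w hw using hw
  let G5 : ℕ → (Pt c l f → Nm P Ω) := fun m => if h : l < m then cst (w m h).1 else cst (x0 0).1
  let N1 : Set (Pt c l f → Nm P Ω) := range G1
  let N2 : Set (Pt c l f → Nm P Ω) := range fun q : J × List s.N =>
    app (F q.1) (q.2.map Subtype.val)
  let N3 : Set (Pt c l f → Nm P Ω) := range fun q : ℕ × s.N => MP.cut q.1 (x0 q.1) q.2.1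
  let N4 : Set (Pt c l f → Nm P Ω) := range G2
  let N5 : Set (Pt c l f → Nm P Ω) := range G5
  have c1 : #N1 ≤ #(Lv c l) := Cardinal.mk_range_le.trans hI
  have c2 : #N2 ≤ #(Lv c l) := by
    refine Cardinal.mk_range_le.trans (mk_prod_le hb ?_ ?_)
    · exact Cardinal.mk_le_aleph0.trans hb
    · exact (Cardinal.mk_list_le_max _).trans (max_le hb s.card)
  have c3 : #N3 ≤ #(Lv c l) := Cardinal.mk_range_le.trans (mk_prod_le hb (mk_nat_le' hb) s.card)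
  have c4 : #N4 ≤ #(Lv c l) := Cardinal.mk_range_le.trans hI
  have c5 : #N5 ≤ #(Lv c l) := Cardinal.mk_range_le.trans (mk_nat_le' hb)
  have hun : ∀ A B : Set (Pt c l f → Nm P Ω), #A ≤ #(Lv c l) → #B ≤ #(Lv c l) →
      #(A ∪ B : Set (Pt c l f → Nm P Ω)) ≤ #(Lv c l) := by
    intro A B hA hB
    refine (Cardinal.mk_union_le A B).trans ?_
    calc #A + #B ≤ #(Lv c l) + #(Lv c l) := add_le_add hA hB
      _ = #(Lv c l) := Cardinal.add_eq_self hb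
  have hcst : ∀ v : Ω, ∃ A : Finset (Leaf c f), FinL (P := P) A (cst v : Pt c l f → Nm P Ω) ∧
      ∀ a ∈ A, a.1 ∈ YY l X := fun v => ⟨∅, FinL.cst v, by simp⟩
  refine ⟨⟨s.N ∪ (N1 ∪ (N2 ∪ (N3 ∪ (N4 ∪ N5)))), hun _ _ s.card (hun _ _ c1 (hun _ _ c2
    (hun _ _ c3 (hun _ _ c4 c5)))), ?_, r3⟩, ⟨⟨subset_union_left, hr3.trans (hr2.trans hr1)⟩,
    ?_, ?_, ?_, ?_, ?_, ?_⟩⟩
  · rintro H (h | h | h | h | h | h)
    · exact s.fs H h
    · obtain ⟨i, rfl⟩ := h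
      by_cases hi : DRel X i.1.1 i.1.2 i.2.1.1 i.2.2
      · simp only [G1, dif_pos hi]
        obtain ⟨A', h1, h2⟩ := (hd i hi).choose_spec.1
        exact ⟨A', h1, fun a ha => (h2 a ha).1⟩
      · simp only [G1, dif_neg hi]
        exact hcst _
    · obtain ⟨q, rfl⟩ := h
      refine FinL.app _ fun H hH => ?_
      obtain ⟨H', _, rfl⟩ := List.mem_map.1 hH
      exact s.fs H'.1 H'.2
    · obtain ⟨q, rfl⟩ := h
      obtain ⟨A, h1, h2⟩ := s.fs q.2.1 q.2.2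
      exact ⟨A, h1.cut, h2⟩
    · obtain ⟨i, rfl⟩ := h
      by_cases hi : l < i.1.1 ∧ FinL i.2.2 i.2.1.1 ∧ ∀ a ∈ i.2.2, a.1 ∈ YY l X
      · simp only [G2, dif_pos hi]
        exact ⟨_, (hsup i hi.1 hi.2.1).choose_spec.1, fun a ha =>
          hi.2.2 a (Finset.mem_filter.1 ha).1⟩
      · simp only [G2, dif_neg hi]
        exact hcst _
    · obtain ⟨m, rfl⟩ := h
      by_cases hm : l < m
      · simp only [G5, dif_pos hm]
        exact hcst _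
      · simp only [G5, dif_neg hm]
        exact hcst _
  · intro n m H hH A hrel
    have hspec := (hd ((n, m), (⟨H, hH⟩, A)) hrel).choose_spec
    have hGe : G1 ((n, m), (⟨H, hH⟩, A)) = (hd ((n, m), (⟨H, hH⟩, A)) hrel).choose := by
      simp only [G1]
      exact dif_pos hrel
    exact ⟨_, Or.inr (Or.inl ⟨((n, m), (⟨H, hH⟩, A)), hGe⟩), hspec.mono (hr3.trans hr2)⟩
  · intro n m H hH A hrel
    exact (hbig ((n, m), (⟨H, hH⟩, A)) hrel).mono hr3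
  · intro j L hL
    refine Or.inr (Or.inr (Or.inl ⟨(j, L.attach.map fun H => ⟨H.1, hL H.1 H.2⟩), ?_⟩))
    have : (L.attach.map fun H => (⟨H.1, hL H.1 H.2⟩ : s.N)).map Subtype.val = L := by
      rw [List.map_map]
      exact List.attach_map_subtype_val L
    simp only [this]
  · intro m H hH
    exact Or.inr (Or.inr (Or.inr (Or.inl ⟨(m, ⟨H, hH⟩), rfl⟩)))
  · intro m hm H hH A hA hAX
    have hi : l < m ∧ FinL A H ∧ ∀ a ∈ A, a.1 ∈ YY l X := ⟨hm, hA, hAX⟩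
    have hspec := (hsup ((m, m), (⟨H, hH⟩, A)) hm hA).choose_spec
    have hGe : G2 ((m, m), (⟨H, hH⟩, A)) = (hsup ((m, m), (⟨H, hH⟩, A)) hm hA).choose := by
      simp only [G2]
      exact dif_pos hi
    exact ⟨_, Or.inr (Or.inr (Or.inr (Or.inr (Or.inl ⟨((m, m), (⟨H, hH⟩, A)), hGe⟩)))), hspec⟩
  · intro m hm
    refine ⟨w m hm, Or.inr (Or.inr (Or.inr (Or.inr (Or.inr ⟨m, dif_pos hm⟩)))), hw m hm⟩

end Pool.Agent.Lib_helper73.MP
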