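import Pool.Agent.Lib_helper73.MP.Seq

/-!
# Names for systems of filters
-/

namespace Pool.Agent.Lib_helper73.MP

open Set Cardinal Pool.Agent.Lib_helper27 Pool.Agent.MS

set_option linter.unusedSectionVars false
set_option linter.unusedVariables false

/-- monotone predicates: `φ p e` is preserved when `p` gets stronger -/
def Mn {P : Type} [Preorder P] {E : Type} (φ : P → E → Prop) : Prop :=
  ∀ ⦃p q⦄, q ≤ p → ∀ ⦃e⦄, φ p e → φ q e

/-- A `P`-name for a system of filters on the ground set `E`. The conditions of the system are given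
by codes in the ground set `C`; `ok p c`: `p` forces that `c` codes a condition; `le p c' c`: `p` forces
that `c'` is stronger than `c`; `All p c φ`: `p` forces that `φ e` holds for almost all `e` in the
sense of the filter of `c`. The filters are closed under intersections of size at most `θ`, the
system is closed under descending sequences of length at most `θ`. -/
structure BSys (P : Type) [Preorder P] (θ : Cardinal.{0}) (E : Type) where
  C : Type
  ok : P → C → Prop
  le : P → C → C → Prop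
  All : P → C → (P → E → Prop) → Prop
  ok_mono : ∀ {p q c}, q ≤ p → ok p c → ok q c
  le_mono : ∀ {p q c c'}, q ≤ p → le p c' c → le q c' c
  All_mono : ∀ {p q c φ}, q ≤ p → Mn φ → All p c φ → All q c φ
  le_refl : ∀ {p c}, ok p c → le p c c
  le_trans : ∀ {p c c' c''}, le p c'' c' → le p c' c → le p c'' c
  All_le : ∀ {p c c' φ}, le p c' c → Mn φ → All p c φ → All p c' φ
  All_imp : ∀ {p c φ ψ}, Mn φ → Mn ψ → (∀ q, q ≤ p → ∀ e, φ q e → Loc q fun r => ψ r e) →
    All p c φ → All p c ψ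
  All_inter : ∀ {p c} {I : Type}, #I ≤ θ → ∀ φ : I → P → E → Prop,
    (∀ i, Mn (φ i)) → (∀ i, All p c (φ i)) → All p c fun q e => ∀ i, Loc q fun r => φ i r e
  All_ex : ∀ {p c φ}, ok p c → Mn φ → All p c φ → ∃ q, q ≤ p ∧ ∃ e, φ q e
  cl : ∀ {p} (I : Type) [LinearOrder I] [WellFoundedLT I], #I ≤ θ → ∀ s : I → C,
    (∀ i, ok p (s i)) → (∀ i j, i ≤ j → le p (s j) (s i)) →
    ∃ q, q ≤ p ∧ ∃ c, ok q c ∧ ∀ i, le q c (s i)

variable {P : Type} [Preorder P] {θ : Cardinal.{0}} {E : Type}

namespace BSys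

/-- `P`-names for functions from a ground set `U` of size at most `μ` to a ground set `Z` of size at
most `ν` can be decided (the decided value is again a name). -/
def Dec (S : BSys P θ E) (μ ν : Cardinal.{0}) : Prop :=
  ∀ p c, S.ok p c → ∀ (U Z : Type), #U ≤ μ → #Z ≤ ν → ∀ H : U → E → Nm P Z,
    ∃ q, q ≤ p ∧ ∃ c', S.ok q c' ∧ S.le q c' c ∧ ∃ g : U → Nm P Z,
      S.All q c' fun r e => ∀ u, Nm.Eqv r (H u e) (g u)

theorem Dec.mono {S : BSys P θ E} {μ ν μ' ν' : Cardinal.{0}} (h : S.Dec μ ν) (hμ : μ' ≤ μ)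
    (hν : ν' ≤ ν) : S.Dec μ' ν' := fun p c hc U Z hU hZ H => h p c hc U Z (hU.trans hμ) (hZ.trans hν) H

variable (S : BSys P θ E)

theorem All_forall (hP : Cl P θ) {p : P} {c : S.C} {I : Type}
    (hI : #I ≤ θ) (φ : I → P → E → Prop) (hφ : ∀ i, Mn (φ i))
    (h : ∀ i, S.All p c (φ i)) : S.All p c fun q e => ∀ i, φ i q e := by
  refine S.All_imp ?_ ?_ ?_ (S.All_inter hI φ hφ h)
  · intro p q hq e h i
    exact (h i).mono hq
  · intro p q hq e h i
    exact hφ i hq (h i)
  · intro q _ e h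
    exact loc_forall hP hI (fun i r => φ i r e) q h fun i r r' hr h' => hφ i hr h'

theorem All_univ {p : P} {c : S.C} {φ : P → E → Prop} (hφ : Mn φ)
    (h : ∀ q, q ≤ p → ∀ e, Loc q fun r => φ r e) : S.All p c φ := by
  have h1 := S.All_inter (p := p) (c := c) (I := Empty)
    (by simp) (fun _ _ _ => False) (fun i => i.elim) (fun i => i.elim)
  exact S.All_imp (φ := fun q e => ∀ i : Empty, Loc q fun _ => False)
    (by intro _ _ _ _ _ i; exact i.elim) hφ (fun q hq e _ => h q hq e) h1

theorem All_and (hP : Cl P θ) (h2 : 2 ≤ θ)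
    {p : P} {c : S.C} {φ ψ : P → E → Prop} (hφ : Mn φ) (hψ : Mn ψ)
    (h : S.All p c φ) (h' : S.All p c ψ) : S.All p c fun q e => φ q e ∧ ψ q e := by
  have := S.All_forall hP (I := Bool) (by simpa using h2)
    (fun b q e => (b = true → φ q e) ∧ (b = false → ψ q e))
    (by
      rintro b p q hq e ⟨h3, h4⟩
      exact ⟨fun hb => hφ hq (h3 hb), fun hb => hψ hq (h4 hb)⟩) (p := p) (c := c) (by
      intro b
      cases b
      · refine S.All_imp hψ ?_ ?_ h'
        · rintro p q hq e ⟨h3, h4⟩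
          exact ⟨fun hb => hφ hq (h3 hb), fun hb => hψ hq (h4 hb)⟩
        · intro q _ e h
          exact Loc.pure fun r hr => ⟨fun hb => by simp at hb, fun _ => hψ hr h⟩
      · refine S.All_imp hφ ?_ ?_ h
        · rintro p q hq e ⟨h3, h4⟩
          exact ⟨fun hb => hφ hq (h3 hb), fun hb => hψ hq (h4 hb)⟩
        · intro q _ e h
          exact Loc.pure fun r hr => ⟨fun _ => hφ hr h, fun hb => by simp at hb⟩)
  refine S.All_imp ?_ ?_ ?_ this
  · intro p q hq e h b
    exact ⟨fun hb => hφ hq ((h b).1 hb), fun hb => hψ hq ((h b).2 hb)⟩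
  · intro p q hq e h
    exact ⟨hφ hq h.1, hψ hq h.2⟩
  · intro q _ e h
    exact Loc.pure fun r hr => ⟨hφ hr ((h true).1 rfl), hψ hr ((h false).2 rfl)⟩

/-- the trivial system -/
def triv (P : Type) [Preorder P] (θ : Cardinal.{0}) {E : Type} (e : E) : BSys P θ E where
  C := Unit
  ok _ _ := True
  le _ _ _ := True
  All p _ φ := Loc p fun q => φ q e
  ok_mono _ _ := trivial
  le_mono _ _ := trivial
  All_mono h _ h' := h'.mono h
  le_refl _ := trivial
  le_trans _ _ := trivial
  All_le _ _ h := h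
  All_imp _ _ h h' := h'.bind fun q hq hφ => h q hq e hφ
  All_inter _ φ _ h := Loc.pure fun q hq i => (h i).mono hq
  All_ex _ _ h := by
    obtain ⟨q, hq, h⟩ := h.exists
    exact ⟨q, hq, e, h⟩
  cl _ _ _ _ _ _ _ := ⟨_, le_rfl, (), trivial, fun _ => trivial⟩

theorem triv_dec (e : E) (μ ν : Cardinal.{0}) : (triv P θ e).Dec μ ν :=
  fun p _ _ U Z _ _ H => ⟨p, le_rfl, (), trivial, trivial, fun u => H u e,
    Loc.pure fun q _ u => Nm.Eqv.refl q (H u e)⟩

end BSys

end Pool.Agent.Lib_helper73.MP
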